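import Mathlib

/-!
# Definitions for the three-term recurrence theorem (problem MP_e2dd58_co, statement S12039)

`Sys X` is an ergodic invertible measure preserving system; functions are plain functions
`X → ℂ`; `B1 f` says that `f` is measurable and bounded by one.
-/

open MeasureTheory Polynomial Finset
open scoped BigOperators ComplexConjugate

namespace Pool.Agent.Helper50.Rec

/-- An ergodic invertible probability preserving system, given by an action of `ℤ`. -/
structure Sys (X : Type) [MeasurableSpace X] where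
  /-- the invariant measure -/
  μ : Measure X
  prob : IsProbabilityMeasure μ
  /-- the action -/
  τ : ℤ → X → X
  τ_zero : ∀ x, τ 0 x = x
  τ_add : ∀ m n x, τ (m + n) x = τ m (τ n x)
  mp : ∀ n, MeasurePreserving (τ n) μ μ
  erg : ∀ B : Set X, MeasurableSet B → τ 1 ⁻¹' B = B → μ B = 0 ∨ μ Bᶜ = 0

variable {X : Type} [MeasurableSpace X]

/-- measurable functions bounded by one -/
def B1 (f : X → ℂ) : Prop := Measurable f ∧ ∀ x, ‖f x‖ ≤ 1

/-- average of the functions `v 0, ..., v (H-1)` -/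
noncomputable def avg (H : ℕ) (v : ℕ → X → ℂ) : X → ℂ :=
  fun x => (H : ℂ)⁻¹ * ∑ h ∈ range H, v h x

/-- `e(t) = exp(2 π i t)` -/
noncomputable def ec (t : ℝ) : ℂ := Complex.exp (2 * Real.pi * t * Complex.I)

/-- iterated average over `{0,...,M-1}^k` of a real function -/
noncomputable def av (M : ℕ) : (k : ℕ) → ((Fin k → ℕ) → ℝ) → ℝ
  | 0, φ => φ Fin.elim0
  | k + 1, φ => (M : ℝ)⁻¹ * ∑ a ∈ range M, av M k (fun l => φ (Fin.cons a l))

/-- cubic product: `box k χ l l' = ∏_ε C^{|ε|} χ (l^ε)` -/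
noncomputable def box : (k : ℕ) → ((Fin k → ℕ) → X → ℂ) → (Fin k → ℕ) → (Fin k → ℕ) → X → ℂ
  | 0, χ, _, _ => χ Fin.elim0
  | k + 1, χ, l, l' =>
      box k (fun m x => χ (Fin.cons (l 0) m) x * conj (χ (Fin.cons (l' 0) m) x))
        (Fin.tail l) (Fin.tail l')

/-- products of `k` functions, the `i`-th of which does not depend on the `i`-th coordinate -/
def Low : (k : ℕ) → ((Fin k → ℕ) → X → ℂ) → Prop
  | 0, A => ∀ l, A l = fun _ => 1
  | k + 1, A => ∃ (a : (Fin k → ℕ) → X → ℂ) (b : ℕ → (Fin k → ℕ) → X → ℂ),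
      (∀ l, B1 (a l)) ∧ (∀ c, Low k (b c)) ∧
        ∀ c l, A (Fin.cons c l) = fun x => a l x * b c l x

namespace Sys

variable (S : Sys X)

/-- the shifted function `T^n f` -/
def sh (n : ℤ) (f : X → ℂ) : X → ℂ := fun x => f (S.τ n x)

/-- the integral -/
noncomputable def int (f : X → ℂ) : ℂ := ∫ x, f x ∂S.μ

/-- squared `L²` norm -/
noncomputable def sq (f : X → ℂ) : ℝ := ∫ x, ‖f x‖ ^ 2 ∂S.μ

/-- `T^a f · conj (T^b f)` -/
noncomputable def dd (a b : ℤ) (f : X → ℂ) : X → ℂ :=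
  fun x => f (S.τ a x) * conj (f (S.τ b x))

/-- finite box averages defining the seminorms -/
noncomputable def Sk : (k : ℕ) → (M : ℕ) → (X → ℂ) → ℝ
  | 0, _, f => ‖S.int f‖ ^ 2
  | k + 1, M, f => ((M : ℝ) ^ 2)⁻¹ * ∑ a ∈ range M, ∑ b ∈ range M, Sk k M (S.dd a b f)

/-- the second seminorm -/
noncomputable def nu2 (f : X → ℂ) : ℝ := ⨅ r : ℕ, S.Sk 1 (2 ^ r) f

/-- all seminorms vanish -/
def Null (f : X → ℂ) : Prop := ∀ k : ℕ, 1 ≤ k → ∀ c : ℝ, 0 < c → ∃ r : ℕ, S.Sk k (2 ^ r) f < c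

/-- iterated difference operator with two vectors of shifts -/
noncomputable def DD : (k : ℕ) → (Fin k → ℕ) → (Fin k → ℕ) → (X → ℂ) → X → ℂ
  | 0, _, _, f => f
  | k + 1, l, l', f => DD k (Fin.tail l) (Fin.tail l') (S.dd (l 0) (l' 0) f)

/-- `χ` is a unimodular eigenfunction with eigenvalue `e(t)` -/
def Eig (t : ℝ) (χ : X → ℂ) : Prop :=
  B1 χ ∧ (∀ᵐ x ∂S.μ, ‖χ x‖ = 1) ∧ ∀ᵐ x ∂S.μ, χ (S.τ 1 x) = ec t * χ x

/-- bounded functions invariant under `T^R` -/
def Inv (R : ℕ) (G : X → ℂ) : Prop :=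
  B1 G ∧ ∀ᵐ x ∂S.μ, G (S.τ R x) = G x

/-- orthogonal to all functions invariant under some power of `T` -/
def RatNull (f : X → ℂ) : Prop :=
  ∀ R : ℕ, 1 ≤ R → ∀ G, S.Inv R G → S.int (fun x => f x * conj (G x)) = 0

end Sys

/-- uniform leading term of positive degree, for a sequence of polynomials -/
def ULT (u : ℕ → ℤ[X]) : Prop :=
  1 ≤ (u 0).natDegree ∧
    ∀ j, (u j).natDegree = (u 0).natDegree ∧ (u j).leadingCoeff = (u 0).leadingCoeff

/-- families of sequences of polynomials all of whose members and pairwise differences have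
uniform leading terms -/
structure Nice {ι : Type} (p : ι → ℕ → ℤ[X]) : Prop where
  self : ∀ i, ULT (p i)
  diff : ∀ i j, i ≠ j → ULT (fun n => p i n - p j n)

/-- the averages along the family tend to zero as soon as the function attached to `i0` is null -/
def Vanish (S : Sys X) {ι : Type} [Fintype ι] (p : ι → ℕ → ℤ[X]) (i0 : ι) : Prop :=
  ∀ f, B1 f → S.Null f → ∀ F : ι → ℕ → X → ℂ, (∀ i n, B1 (F i n)) → (∀ n, F i0 n = f) →
    ∀ H : ℕ → ℕ, Filter.Tendsto H Filter.atTop Filter.atTop →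
      Filter.Tendsto
        (fun n => S.sq (avg (H n) (fun h x => ∏ i, S.sh ((p i n).eval (h : ℤ)) (F i n) x)))
        Filter.atTop (nhds 0)

end Pool.Agent.Helper50.Rec
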