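import Mathlib
import Pool.Agent.Helper50.Rec.Defs

/-!
# Basic lemmas on systems, functions bounded by one, and the van der Corput inequality
-/

open MeasureTheory Polynomial Finset
open scoped BigOperators ComplexConjugate

namespace Pool.Agent.Helper50.Rec

variable {X : Type} [MeasurableSpace X]

/-! ### functions bounded by one -/

lemma B1.meas {f : X → ℂ} (hf : B1 f) : Measurable f := hf.1

lemma B1.le {f : X → ℂ} (hf : B1 f) (x : X) : ‖f x‖ ≤ 1 := hf.2 x

lemma B1.const {c : ℂ} (hc : ‖c‖ ≤ 1) : B1 (fun _ : X => c) := ⟨measurable_const, fun _ => hc⟩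

lemma B1.one : B1 (fun _ : X => (1 : ℂ)) := B1.const (by simp)

lemma B1.mul {f g : X → ℂ} (hf : B1 f) (hg : B1 g) : B1 (fun x => f x * g x) :=
  ⟨hf.1.mul hg.1, fun x => by
    rw [norm_mul]; exact mul_le_one₀ (hf.2 x) (norm_nonneg _) (hg.2 x)⟩

lemma B1.conj {f : X → ℂ} (hf : B1 f) : B1 (fun x => conj (f x)) :=
  ⟨Complex.continuous_conj.measurable.comp hf.1, fun x => by
    rw [RCLike.norm_conj]; exact hf.2 x⟩

lemma B1.cmul {f : X → ℂ} (hf : B1 f) {c : ℂ} (hc : ‖c‖ ≤ 1) : B1 (fun x => c * f x) :=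
  (B1.const hc).mul hf

lemma B1.prod {ι : Type} (s : Finset ι) {f : ι → X → ℂ} (hf : ∀ i, B1 (f i)) :
    B1 (fun x => ∏ i ∈ s, f i x) := by
  classical
  induction s using Finset.induction_on with
  | empty => simpa using B1.one
  | insert i s hi ih =>
    have : (fun x => ∏ j ∈ insert i s, f j x) = fun x => f i x * ∏ j ∈ s, f j x := by
      funext x; rw [Finset.prod_insert hi]
    rw [this]; exact (hf i).mul ih

lemma norm_avg_le {z : ℕ → ℂ} (H : ℕ) (hz : ∀ h, ‖z h‖ ≤ 1) :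
    ‖(H : ℂ)⁻¹ * ∑ h ∈ range H, z h‖ ≤ 1 := by
  rw [norm_mul, norm_inv, Complex.norm_natCast]
  rcases Nat.eq_zero_or_pos H with h0 | h0
  · subst h0; simp
  · have hH : (0 : ℝ) < H := by exact_mod_cast h0
    have h1 : ‖∑ h ∈ range H, z h‖ ≤ H := by
      refine (norm_sum_le _ _).trans ?_
      calc ∑ h ∈ range H, ‖z h‖ ≤ ∑ h ∈ range H, (1 : ℝ) := Finset.sum_le_sum fun h _ => hz h
        _ = H := by simp
    rw [inv_mul_le_iff₀ hH]; simpa using h1

lemma B1.avg {v : ℕ → X → ℂ} (hv : ∀ h, B1 (v h)) (H : ℕ) : B1 (avg H v) := by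
  refine ⟨?_, fun x => norm_avg_le H fun h => (hv h).2 x⟩
  unfold Rec.avg
  exact measurable_const.mul (Finset.measurable_sum _ fun h _ => (hv h).1)

lemma norm_ec (t : ℝ) : ‖ec t‖ = 1 := by
  unfold ec
  rw [show (2 * (Real.pi : ℂ) * (t : ℂ) * Complex.I) = ((2 * Real.pi * t : ℝ) : ℂ) * Complex.I by
    push_cast; ring]
  exact Complex.norm_exp_ofReal_mul_I _

lemma ec_add (s t : ℝ) : ec (s + t) = ec s * ec t := by
  unfold ec; rw [← Complex.exp_add]; congr 1; push_cast; ring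

lemma ec_zero : ec 0 = 1 := by simp [ec]

lemma ec_neg (t : ℝ) : ec (-t) = conj (ec t) := by
  have h : ec (-t) * ec t = 1 := by rw [← ec_add]; simp [ec_zero]
  have h2 : conj (ec t) * ec t = 1 := by
    rw [← Complex.normSq_eq_conj_mul_self, Complex.normSq_eq_norm_sq, norm_ec]; simp
  have h0 : ec t ≠ 0 := by
    intro h0; have := norm_ec t; rw [h0] at this; simp at this
  exact mul_right_cancel₀ h0 (h.trans h2.symm)

lemma ec_int (z : ℤ) : ec (z : ℝ) = 1 := by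
  unfold ec
  rw [show (2 * (Real.pi : ℂ) * ((z : ℝ) : ℂ) * Complex.I) = z * (2 * Real.pi * Complex.I) by
    push_cast; ring]
  exact Complex.exp_int_mul_two_pi_mul_I z

lemma ec_sub_int (t : ℝ) (z : ℤ) : ec (t - z) = ec t := by
  rw [sub_eq_add_neg, ec_add, ec_neg, ec_int]; simp

namespace Sys

variable (S : Sys X)

instance : IsProbabilityMeasure S.μ := S.prob

lemma τ_meas (n : ℤ) : Measurable (S.τ n) := (S.mp n).measurable

/-- the shift as a measurable equivalence -/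
def τe (n : ℤ) : X ≃ᵐ X where
  toFun := S.τ n
  invFun := S.τ (-n)
  left_inv x := by rw [← S.τ_add]; simp [S.τ_zero]
  right_inv x := by rw [← S.τ_add]; simp [S.τ_zero]
  measurable_toFun := S.τ_meas n
  measurable_invFun := S.τ_meas (-n)

lemma int_sh (n : ℤ) (f : X → ℂ) : S.int (S.sh n f) = S.int f := by
  have := (S.mp n).integral_comp (S.τe n).measurableEmbedding f
  simpa [int, sh] using this

lemma integral_sh (n : ℤ) (f : X → ℝ) : ∫ x, f (S.τ n x) ∂S.μ = ∫ x, f x ∂S.μ :=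
  (S.mp n).integral_comp (S.τe n).measurableEmbedding f

lemma ae_sh (n : ℤ) {p : X → Prop} (h : ∀ᵐ x ∂S.μ, p x) : ∀ᵐ x ∂S.μ, p (S.τ n x) :=
  (S.mp n).quasiMeasurePreserving.ae h

lemma sh_zero (f : X → ℂ) : S.sh 0 f = f := by funext x; simp [sh, S.τ_zero]

lemma sh_sh (m n : ℤ) (f : X → ℂ) : S.sh m (S.sh n f) = S.sh (n + m) f := by
  funext x; simp [sh, S.τ_add]

lemma sh_sh' (m n : ℤ) (f : X → ℂ) : S.sh m (S.sh n f) = S.sh (m + n) f := by
  rw [sh_sh, add_comm]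

lemma sh_mul (n : ℤ) (f g : X → ℂ) : S.sh n (fun x => f x * g x) =
    fun x => S.sh n f x * S.sh n g x := rfl

lemma sh_conj (n : ℤ) (f : X → ℂ) : S.sh n (fun x => conj (f x)) = fun x => conj (S.sh n f x) := rfl

variable {S}

lemma _root_.Pool.Agent.Helper50.Rec.B1.sh {f : X → ℂ} (hf : B1 f) (S : Sys X) (n : ℤ) :
    B1 (S.sh n f) := ⟨hf.1.comp (S.τ_meas n), fun x => hf.2 _⟩

lemma _root_.Pool.Agent.Helper50.Rec.B1.dd {f : X → ℂ} (hf : B1 f) (S : Sys X) (a b : ℤ) :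
    B1 (S.dd a b f) := (hf.sh S a).mul (hf.sh S b).conj

lemma _root_.Pool.Agent.Helper50.Rec.B1.DD {f : X → ℂ} (hf : B1 f) (S : Sys X) (k : ℕ)
    (l l' : Fin k → ℕ) : B1 (S.DD k l l' f) := by
  induction k generalizing f with
  | zero => exact hf
  | succ k ih => exact ih (hf.dd S _ _) _ _

variable (S)

lemma integrable {f : X → ℂ} (hf : B1 f) : Integrable f S.μ :=
  Integrable.of_bound hf.1.aestronglyMeasurable 1 (Filter.Eventually.of_forall hf.2)

lemma integrable_sq {f : X → ℂ} (hf : B1 f) : Integrable (fun x => ‖f x‖ ^ 2) S.μ := by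
  refine Integrable.of_bound (hf.1.norm.pow_const 2).aestronglyMeasurable 1
    (Filter.Eventually.of_forall fun x => ?_)
  rw [Real.norm_of_nonneg (by positivity)]
  exact pow_le_one₀ (norm_nonneg _) (hf.2 x)

lemma norm_int_le {f : X → ℂ} (hf : B1 f) : ‖S.int f‖ ≤ 1 := by
  have := norm_integral_le_of_norm_le_const (μ := S.μ) (C := 1)
    (Filter.Eventually.of_forall hf.2)
  simpa [int] using this

lemma sq_nonneg (f : X → ℂ) : 0 ≤ S.sq f := integral_nonneg fun x => by positivity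

lemma sq_le_one {f : X → ℂ} (hf : B1 f) : S.sq f ≤ 1 := by
  have h : ∫ x, ‖f x‖ ^ 2 ∂S.μ ≤ ∫ _, (1 : ℝ) ∂S.μ :=
    integral_mono (S.integrable_sq hf) (integrable_const _)
      fun x => pow_le_one₀ (norm_nonneg _) (hf.2 x)
  simpa [sq] using h

lemma sq_sh (n : ℤ) (f : X → ℂ) : S.sq (S.sh n f) = S.sq f :=
  S.integral_sh n (fun x => ‖f x‖ ^ 2)

lemma sq_conj (f : X → ℂ) : S.sq (fun x => conj (f x)) = S.sq f := by
  simp [sq]

lemma sq_eq_int (f : X → ℂ) : ((S.sq f : ℝ) : ℂ) = S.int (fun x => f x * conj (f x)) := by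
  unfold sq int
  rw [← integral_complex_ofReal]
  congr 1; funext x
  show ((‖f x‖ ^ 2 : ℝ) : ℂ) = f x * conj (f x)
  rw [Complex.mul_conj, Complex.normSq_eq_norm_sq]

/-- Cauchy-Schwarz -/
lemma cs {f g : X → ℂ} (hf : B1 f) (hg : B1 g) :
    ‖S.int (fun x => f x * g x)‖ ^ 2 ≤ S.sq f * S.sq g := by
  have h1 : ‖S.int (fun x => f x * g x)‖ ≤ ∫ x, ‖f x‖ * ‖g x‖ ∂S.μ := by
    refine (norm_integral_le_integral_norm _).trans_eq ?_
    congr 1; funext x; rw [norm_mul]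
  have hf2 : MemLp (fun x => ‖f x‖) (ENNReal.ofReal 2) S.μ := by
    refine MemLp.of_bound hf.1.norm.aestronglyMeasurable 1
      (Filter.Eventually.of_forall fun x => ?_)
    rw [norm_norm]; exact hf.2 x
  have hg2 : MemLp (fun x => ‖g x‖) (ENNReal.ofReal 2) S.μ := by
    refine MemLp.of_bound hg.1.norm.aestronglyMeasurable 1
      (Filter.Eventually.of_forall fun x => ?_)
    rw [norm_norm]; exact hg.2 x
  have h2 := integral_mul_le_Lp_mul_Lq_of_nonneg (μ := S.μ) (p := 2) (q := 2)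
    Real.HolderConjugate.two_two
    (Filter.Eventually.of_forall fun x => norm_nonneg (f x))
    (Filter.Eventually.of_forall fun x => norm_nonneg (g x)) hf2 hg2
  have e1 : (∫ x, ‖f x‖ ^ (2 : ℝ) ∂S.μ) = S.sq f := by
    unfold sq; congr 1; funext x; norm_num
  have e2 : (∫ x, ‖g x‖ ^ (2 : ℝ) ∂S.μ) = S.sq g := by
    unfold sq; congr 1; funext x; norm_num
  rw [e1, e2] at h2
  have h3 : ‖S.int (fun x => f x * g x)‖ ≤ Real.sqrt (S.sq f) * Real.sqrt (S.sq g) := by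
    refine h1.trans (h2.trans_eq ?_)
    rw [Real.sqrt_eq_rpow, Real.sqrt_eq_rpow]
  calc ‖S.int (fun x => f x * g x)‖ ^ 2
      ≤ (Real.sqrt (S.sq f) * Real.sqrt (S.sq g)) ^ 2 := by gcongr
    _ = S.sq f * S.sq g := by
      rw [mul_pow, Real.sq_sqrt (S.sq_nonneg f), Real.sq_sqrt (S.sq_nonneg g)]

lemma cs_one {f g : X → ℂ} (hf : B1 f) (hg : B1 g) :
    ‖S.int (fun x => f x * g x)‖ ^ 2 ≤ S.sq f :=
  (S.cs hf hg).trans (mul_le_of_le_one_right (S.sq_nonneg f) (S.sq_le_one hg))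

lemma sq_mul_le {f g : X → ℂ} (hf : B1 f) (hg : B1 g) :
    S.sq (fun x => f x * g x) ≤ S.sq f := by
  refine integral_mono (S.integrable_sq (hf.mul hg)) (S.integrable_sq hf) fun x => ?_
  simp only [norm_mul, mul_pow]
  exact mul_le_of_le_one_right (by positivity) (pow_le_one₀ (norm_nonneg _) (hg.2 x))

lemma int_add {f g : X → ℂ} (hf : Integrable f S.μ) (hg : Integrable g S.μ) :
    S.int (fun x => f x + g x) = S.int f + S.int g := integral_add hf hg

lemma int_cmul (c : ℂ) (f : X → ℂ) : S.int (fun x => c * f x) = c * S.int f :=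
  integral_const_mul c f

lemma int_sum {ι : Type} (s : Finset ι) {f : ι → X → ℂ} (hf : ∀ i, Integrable (f i) S.μ) :
    S.int (fun x => ∑ i ∈ s, f i x) = ∑ i ∈ s, S.int (f i) :=
  integral_finsetSum s fun i _ => hf i

lemma int_congr_ae {f g : X → ℂ} (h : ∀ᵐ x ∂S.μ, f x = g x) : S.int f = S.int g :=
  integral_congr_ae h

/-- the integral against an average is the average of the integrals -/
lemma int_avg_mul {v : ℕ → X → ℂ} (hv : ∀ h, B1 (v h)) (H : ℕ) {g : X → ℂ} (hg : B1 g) :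
    S.int (fun x => avg H v x * g x) =
      (H : ℂ)⁻¹ * ∑ h ∈ range H, S.int (fun x => v h x * g x) := by
  have : (fun x => avg H v x * g x) = fun x => (H : ℂ)⁻¹ * ∑ h ∈ range H, v h x * g x := by
    funext x; simp only [avg]; rw [mul_assoc, Finset.sum_mul]
  rw [this, S.int_cmul, S.int_sum _ fun h => S.integrable ((hv h).mul hg)]

/-- pointwise expansion of the square of an average -/
lemma norm_sq_avg (z : ℕ → ℂ) (K : ℕ) :
    ((‖(K : ℂ)⁻¹ * ∑ a ∈ range K, z a‖ ^ 2 : ℝ) : ℂ) =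
      ((K : ℂ) ^ 2)⁻¹ * ∑ a ∈ range K, ∑ b ∈ range K, z a * conj (z b) := by
  rw [← Complex.normSq_eq_norm_sq, ← Complex.mul_conj, map_mul, map_inv₀, Complex.conj_natCast,
    map_sum, mul_mul_mul_comm, ← Finset.sum_mul_sum]
  congr 1
  rw [← mul_inv, _root_.sq]

/-- expansion of the square norm of an average -/
lemma sq_avg {v : ℕ → X → ℂ} (hv : ∀ h, B1 (v h)) (K : ℕ) :
    ((S.sq (avg K v) : ℝ) : ℂ) =
      ((K : ℂ) ^ 2)⁻¹ * ∑ a ∈ range K, ∑ b ∈ range K, S.int (fun x => v a x * conj (v b x)) := by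
  have h1 : ((S.sq (avg K v) : ℝ) : ℂ) = S.int (fun x =>
      ((K : ℂ) ^ 2)⁻¹ * ∑ a ∈ range K, ∑ b ∈ range K, v a x * conj (v b x)) := by
    unfold sq int
    rw [← integral_complex_ofReal]
    congr 1; funext x
    exact norm_sq_avg (fun a => v a x) K
  rw [h1, S.int_cmul, S.int_sum]
  · congr 1
    refine Finset.sum_congr rfl fun a _ => ?_
    rw [S.int_sum]
    intro b; exact S.integrable ((hv a).mul (hv b).conj)
  · intro a
    exact integrable_finsetSum _ fun b _ => S.integrable ((hv a).mul (hv b).conj)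

/-- convexity of the square norm -/
lemma sq_avg_le {v : ℕ → X → ℂ} (hv : ∀ h, B1 (v h)) (H : ℕ) :
    S.sq (avg H v) ≤ (H : ℝ)⁻¹ * ∑ h ∈ range H, S.sq (v h) := by
  have h1 : ∀ x, ‖avg H v x‖ ^ 2 ≤ (H : ℝ)⁻¹ * ∑ h ∈ range H, ‖v h x‖ ^ 2 := by
    intro x
    rcases Nat.eq_zero_or_pos H with h0 | h0
    · subst h0; simp [avg]
    · have hH : (0 : ℝ) < H := by exact_mod_cast h0
      have h2 : ‖avg H v x‖ ≤ (H : ℝ)⁻¹ * ∑ h ∈ range H, ‖v h x‖ := by
        unfold avg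
        rw [norm_mul, norm_inv, Complex.norm_natCast]
        gcongr
        exact norm_sum_le _ _
      have h3 : (∑ h ∈ range H, ‖v h x‖) ^ 2 ≤ H * ∑ h ∈ range H, ‖v h x‖ ^ 2 := by
        have := sq_sum_le_card_mul_sum_sq (s := range H) (f := fun h => ‖v h x‖)
        simpa using this
      calc ‖avg H v x‖ ^ 2 ≤ ((H : ℝ)⁻¹ * ∑ h ∈ range H, ‖v h x‖) ^ 2 := by gcongr
        _ = (H : ℝ)⁻¹ ^ 2 * (∑ h ∈ range H, ‖v h x‖) ^ 2 := by ring
        _ ≤ (H : ℝ)⁻¹ ^ 2 * (H * ∑ h ∈ range H, ‖v h x‖ ^ 2) := by gcongr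
        _ = (H : ℝ)⁻¹ * ∑ h ∈ range H, ‖v h x‖ ^ 2 := by field_simp
  calc S.sq (avg H v) ≤ ∫ x, (H : ℝ)⁻¹ * ∑ h ∈ range H, ‖v h x‖ ^ 2 ∂S.μ := by
        refine integral_mono (S.integrable_sq (B1.avg hv H)) ?_ h1
        exact (integrable_finsetSum _ fun h _ => S.integrable_sq (hv h)).const_mul _
    _ = (H : ℝ)⁻¹ * ∑ h ∈ range H, S.sq (v h) := by
        rw [integral_const_mul, integral_finsetSum _ fun h _ => S.integrable_sq (hv h)]
        rfl

end Sys

/-- shifting the range of an average -/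
lemma norm_avg_shift (z : ℕ → ℂ) (hz : ∀ h, ‖z h‖ ≤ 1) (H a : ℕ) (hH : 1 ≤ H) :
    ‖(H : ℂ)⁻¹ * ∑ h ∈ range H, z h - (H : ℂ)⁻¹ * ∑ h ∈ range H, z (h + a)‖ ≤ 2 * a / H := by
  have hH' : (0 : ℝ) < H := by exact_mod_cast hH
  rw [← mul_sub, norm_mul, norm_inv, Complex.norm_natCast, inv_mul_le_iff₀ hH']
  have e1 : ∑ h ∈ range H, z (h + a) = ∑ h ∈ range (H + a), z h - ∑ h ∈ range a, z h := by
    rw [add_comm H a, Finset.sum_range_add]
    simp [add_comm]
  have e2 : ∑ h ∈ range (H + a), z h = ∑ h ∈ range H, z h + ∑ h ∈ range a, z (H + h) :=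
    Finset.sum_range_add _ _ _
  rw [e1, e2]
  have e3 : ∑ h ∈ range H, z h - (∑ h ∈ range H, z h + ∑ h ∈ range a, z (H + h) -
      ∑ h ∈ range a, z h) = ∑ h ∈ range a, z h - ∑ h ∈ range a, z (H + h) := by ring
  rw [e3]
  have b1 : ‖∑ h ∈ range a, z h‖ ≤ a := by
    refine (norm_sum_le _ _).trans ?_
    calc ∑ h ∈ range a, ‖z h‖ ≤ ∑ h ∈ range a, (1 : ℝ) := Finset.sum_le_sum fun h _ => hz h
      _ = a := by simp
  have b2 : ‖∑ h ∈ range a, z (H + h)‖ ≤ a := by
    refine (norm_sum_le _ _).trans ?_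
    calc ∑ h ∈ range a, ‖z (H + h)‖ ≤ ∑ h ∈ range a, (1 : ℝ) :=
          Finset.sum_le_sum fun h _ => hz _
      _ = a := by simp
  calc ‖∑ h ∈ range a, z h - ∑ h ∈ range a, z (H + h)‖
      ≤ ‖∑ h ∈ range a, z h‖ + ‖∑ h ∈ range a, z (H + h)‖ := norm_sub_le _ _
    _ ≤ H * (2 * a / H) := by
      rw [mul_div_cancel₀ _ hH'.ne']; linarith

/-- van der Corput inequality (REC-5) -/
theorem vdc (S : Sys X) (v : ℕ → X → ℂ) (hv : ∀ h, B1 (v h)) (H K : ℕ) (hK : 1 ≤ K)
    (hKH : K ≤ H) :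
    S.sq (avg H v) ≤ ((K : ℝ) ^ 2)⁻¹ * ∑ a ∈ range K, ∑ b ∈ range K,
      ‖(H : ℂ)⁻¹ * ∑ h ∈ range H, S.int (fun x => v (h + a) x * conj (v (h + b) x))‖
        + 2 * K / H := by
  have hH : 1 ≤ H := hK.trans hKH
  have hH' : (0 : ℝ) < H := by exact_mod_cast hH
  have hK' : (0 : ℝ) < K := by exact_mod_cast hK
  set w : ℕ → X → ℂ := fun h => avg K (fun a => v (h + a)) with hw
  have hwB : ∀ h, B1 (w h) := fun h => B1.avg (fun a => hv _) K
  -- pointwise closeness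
  have hclose : ∀ x, ‖avg H v x - avg H w x‖ ≤ K / H := by
    intro x
    have e1 : avg H w x = (K : ℂ)⁻¹ * ∑ a ∈ range K, ((H : ℂ)⁻¹ * ∑ h ∈ range H, v (h + a) x) := by
      simp only [hw, avg, Finset.mul_sum]
      rw [Finset.sum_comm]
      refine Finset.sum_congr rfl fun a _ => Finset.sum_congr rfl fun h _ => ?_
      ring
    have e2 : avg H v x = (K : ℂ)⁻¹ * ∑ a ∈ range K, avg H v x := by
      rw [Finset.sum_const, card_range, nsmul_eq_mul, ← mul_assoc, inv_mul_cancel₀, one_mul]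
      exact_mod_cast hK'.ne'
    rw [e2, e1, ← mul_sub, ← Finset.sum_sub_distrib, norm_mul, norm_inv, Complex.norm_natCast,
      inv_mul_le_iff₀ hK']
    calc ‖∑ a ∈ range K, (avg H v x - (H : ℂ)⁻¹ * ∑ h ∈ range H, v (h + a) x)‖
        ≤ ∑ a ∈ range K, (2 * (a : ℝ) / H) := by
          refine (norm_sum_le _ _).trans (Finset.sum_le_sum fun a _ => ?_)
          exact norm_avg_shift (fun h => v h x) (fun h => (hv h).2 x) H a hH
      _ = (2 / H) * ∑ a ∈ range K, (a : ℝ) := by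
          rw [Finset.mul_sum]; refine Finset.sum_congr rfl fun a _ => ?_; ring
      _ ≤ (2 / H) * (K * K / 2) := by
          gcongr
          have := Finset.sum_range_id_mul_two K
          have h2 : (∑ a ∈ range K, (a : ℝ)) * 2 = K * ((K : ℝ) - 1) := by
            have h3 : ((∑ a ∈ range K, a : ℕ) : ℝ) * 2 = ((K * (K - 1) : ℕ) : ℝ) := by
              exact_mod_cast this
            rw [Nat.cast_sum] at h3
            rw [h3]; push_cast [Nat.cast_sub hK]; ring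
          nlinarith
      _ = K * (K / H) := by ring
  -- compare the squares
  have h1 : S.sq (avg H v) ≤ S.sq (avg H w) + 2 * K / H := by
    have hpt : ∀ x, ‖avg H v x‖ ^ 2 ≤ ‖avg H w x‖ ^ 2 + 2 * K / H := by
      intro x
      have b1 := (B1.avg hv H).2 x
      have b2 := (B1.avg hwB H).2 x
      have b3 : ‖avg H v x‖ ≤ ‖avg H w x‖ + K / H := by
        have := norm_le_norm_add_norm_sub' (avg H v x) (avg H w x)
        have := hclose x
        linarith
      have n1 := norm_nonneg (avg H v x)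
      have n2 := norm_nonneg (avg H w x)
      have : ‖avg H v x‖ ^ 2 - ‖avg H w x‖ ^ 2 ≤ 2 * (K / H) := by
        by_cases hle : ‖avg H v x‖ ≤ ‖avg H w x‖
        · have : ‖avg H v x‖ ^ 2 ≤ ‖avg H w x‖ ^ 2 := by gcongr
          have : (0 : ℝ) ≤ 2 * (K / H) := by positivity
          linarith
        · push Not at hle
          nlinarith
      calc ‖avg H v x‖ ^ 2 ≤ ‖avg H w x‖ ^ 2 + 2 * (K / H) := by linarith
        _ = _ := by ring
    calc S.sq (avg H v) ≤ ∫ x, (‖avg H w x‖ ^ 2 + 2 * K / H) ∂S.μ :=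
          integral_mono (S.integrable_sq (B1.avg hv H))
            ((S.integrable_sq (B1.avg hwB H)).add (integrable_const _)) hpt
      _ = S.sq (avg H w) + 2 * K / H := by
          rw [integral_add (S.integrable_sq (B1.avg hwB H)) (integrable_const _)]
          simp [Sys.sq]
  -- bound the square norm of the double average
  have h2 : S.sq (avg H w) ≤ ((K : ℝ) ^ 2)⁻¹ * ∑ a ∈ range K, ∑ b ∈ range K,
      ‖(H : ℂ)⁻¹ * ∑ h ∈ range H, S.int (fun x => v (h + a) x * conj (v (h + b) x))‖ := by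
    have e1 := S.sq_avg_le hwB H
    have e2 : ((((H : ℝ)⁻¹ * ∑ h ∈ range H, S.sq (w h)) : ℝ) : ℂ) =
        ((K : ℂ) ^ 2)⁻¹ * ∑ a ∈ range K, ∑ b ∈ range K, ((H : ℂ)⁻¹ * ∑ h ∈ range H,
          S.int (fun x => v (h + a) x * conj (v (h + b) x))) := by
      push_cast
      have : ∀ h, ((S.sq (w h) : ℝ) : ℂ) = ((K : ℂ) ^ 2)⁻¹ * ∑ a ∈ range K, ∑ b ∈ range K,
          S.int (fun x => v (h + a) x * conj (v (h + b) x)) := fun h =>
        S.sq_avg (fun a => hv (h + a)) K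
      simp only [this, Finset.mul_sum]
      rw [Finset.sum_comm]
      refine Finset.sum_congr rfl fun a _ => ?_
      rw [Finset.sum_comm]
      refine Finset.sum_congr rfl fun b _ => Finset.sum_congr rfl fun h _ => ?_
      ring
    have e3 : (H : ℝ)⁻¹ * ∑ h ∈ range H, S.sq (w h) ≤
        ‖((((H : ℝ)⁻¹ * ∑ h ∈ range H, S.sq (w h)) : ℝ) : ℂ)‖ := by
      rw [Complex.norm_real]; exact le_abs_self _
    refine e1.trans (e3.trans ?_)
    rw [e2, norm_mul, norm_inv, norm_pow, Complex.norm_natCast]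
    gcongr
    refine (norm_sum_le _ _).trans (Finset.sum_le_sum fun a _ => ?_)
    exact norm_sum_le _ _
  linarith

end Pool.Agent.Helper50.Rec
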