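import Mathlib
import Pool.Agent.Helper50.Rec.Defs

/-!
# Definitions for the arithmetic part

Generalised binomial coefficients, the window of base points and the phases.
-/

open Finset

namespace Pool.Agent.Helper50.Rec

/-- generalised binomial coefficient `g (g-1) ... (g-i+1) / i!` -/
noncomputable def gb (g : ℝ) (i : ℕ) : ℝ := (∏ j ∈ range i, (g - j)) / (i.factorial : ℝ)

/-- left end of the window of base points -/
noncomputable def winU (b : ℝ) (D r : ℕ) (η : ℝ) (q : ℕ) : ℝ :=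
  (|gb b D| * (q : ℝ) ^ D / (r + η)) ^ (1 / ((D : ℝ) - b))

/-- right end of the window of base points -/
noncomputable def winV (b : ℝ) (D r : ℕ) (q : ℕ) : ℝ :=
  (|gb b D| * (q : ℝ) ^ D / r) ^ (1 / ((D : ℝ) - b))

/-- integer combination of the Taylor coefficients, divided by `r` -/
noncomputable def phase (a b : ℝ) (D e r q : ℕ) (κb : Fin D → ℤ) (κa : Fin e → ℤ) (x : ℝ) : ℝ :=
  (∑ i : Fin D, (κb i : ℝ) * (gb b i * x ^ (b - (i : ℕ)) * (q : ℝ) ^ (i : ℕ) / r)) +
    ∑ i : Fin e, (κa i : ℝ) * (gb a i * x ^ (a - (i : ℕ)) * (q : ℝ) ^ (i : ℕ) / r)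

/-- the admissible parameters -/
structure Params (a b : ℝ) (D e : ℕ) : Prop where
  ha : 1 < a
  hab : a < b
  ha' : ∀ k : ℤ, a ≠ k
  hb' : ∀ k : ℤ, b ≠ k
  hD : 2 * b + 1 ≤ D
  hne : ∀ k : ℤ, a * D / b ≠ k
  he : e = ⌊a * D / b⌋₊

end Pool.Agent.Helper50.Rec
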