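import Mathlib
import Pool.Agent.Helper28.Rec.ArithD
import Pool.Agent.Helper68.Rec.PhaseAux
import Pool.Agent.Helper42.Rec.ExpSum

/-!
# The arithmetic input (REC-13), assembled from the modules of helper28, helper68 and helper42
-/

open Polynomial Finset

namespace Pool.Agent.Helper50.Rec

/-- REC-13 -/
theorem arith (a b : ℝ) (ha : 1 < a) (hab : a < b) (ha' : ∀ k : ℤ, a ≠ k)
    (hb' : ∀ k : ℤ, b ≠ k) :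
    ∃ e D : ℕ, 1 ≤ e ∧ e < D ∧ ∃ s : ℤ, (s = 1 ∨ s = -1) ∧
      ∀ r H L₀ : ℕ, 1 ≤ r → ∃ L : ℕ, ∃ x₀ : ℤ, L₀ ≤ L ∧
        ∀ x : ℤ, x₀ ≤ x → x < x₀ + L → ∃ A B : ℤ[X], ∃ n : ℕ → ℕ,
          A.natDegree = e ∧ A.leadingCoeff = r * x ∧ (∀ i, (r : ℤ) ∣ A.coeff i) ∧
          B.natDegree = D ∧ B.leadingCoeff = s * r ∧ (∀ i, (r : ℤ) ∣ B.coeff i) ∧
          ∀ h < H, 0 < n h ∧ ((⌊(n h : ℝ) ^ a⌋₊ : ℕ) : ℤ) = A.eval (h : ℤ) ∧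
            ((⌊(n h : ℝ) ^ b⌋₊ : ℕ) : ℤ) = B.eval (h : ℤ) ∧
            ⌊(n h : ℝ) ^ a⌋₊ ≠ ⌊(n h : ℝ) ^ b⌋₊ :=
  arith_core (fun a b D e hp r hr η hη κb κa hκ c ε hc hε =>
    phase_sum_aux (fun k hk C ε hC hε => expsum k hk C ε hC hε) a b D e hp r hr η hη κb κa hκ c ε
      hc hε) a b ha hab ha' hb'

end Pool.Agent.Helper50.Rec
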