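import Mathlib
import Pool.Agent.Helper50.Rec.Basic

/-!
# Iterated averages, cubic products, difference operators
-/

open MeasureTheory Finset Filter Topology
open scoped BigOperators ComplexConjugate

set_option linter.unusedSectionVars false
set_option linter.unusedVariables false

namespace Pool.Agent.Helper50.Rec

/-! ### iterated averages -/

lemma av_zero (M : ℕ) (φ : (Fin 0 → ℕ) → ℝ) : av M 0 φ = φ Fin.elim0 := rfl

lemma av_succ (M k : ℕ) (φ : (Fin (k + 1) → ℕ) → ℝ) :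
    av M (k + 1) φ = (M : ℝ)⁻¹ * ∑ a ∈ range M, av M k (fun l => φ (Fin.cons a l)) := rfl

lemma av_congr (M : ℕ) : ∀ (k : ℕ) {φ ψ : (Fin k → ℕ) → ℝ}, (∀ l, φ l = ψ l) →
    av M k φ = av M k ψ := by
  intro k φ ψ h
  rw [show φ = ψ from funext h]

lemma av_mono (M : ℕ) : ∀ (k : ℕ) {φ ψ : (Fin k → ℕ) → ℝ}, (∀ l, φ l ≤ ψ l) →
    av M k φ ≤ av M k ψ
  | 0, _, _, h => h _
  | k + 1, φ, ψ, h => by
    rw [av_succ, av_succ]
    have : ∀ a ∈ range M, av M k (fun l => φ (Fin.cons a l)) ≤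
        av M k (fun l => ψ (Fin.cons a l)) := fun a _ => av_mono M k fun l => h _
    gcongr with a ha
    exact this a ha

lemma av_const {M : ℕ} (hM : 1 ≤ M) : ∀ (k : ℕ) (c : ℝ), av M k (fun _ => c) = c
  | 0, _ => rfl
  | k + 1, c => by
    rw [av_succ]
    simp only [av_const hM k c, Finset.sum_const, card_range, nsmul_eq_mul]
    have : (M : ℝ) ≠ 0 := by positivity
    field_simp

lemma av_nonneg (M : ℕ) : ∀ (k : ℕ) {φ : (Fin k → ℕ) → ℝ}, (∀ l, 0 ≤ φ l) → 0 ≤ av M k φ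
  | 0, _, h => h _
  | k + 1, φ, h => by
    rw [av_succ]
    exact mul_nonneg (by positivity) (Finset.sum_nonneg fun a _ => av_nonneg M k fun l => h _)

lemma av_add (M : ℕ) : ∀ (k : ℕ) (φ ψ : (Fin k → ℕ) → ℝ),
    av M k (fun l => φ l + ψ l) = av M k φ + av M k ψ
  | 0, _, _ => rfl
  | k + 1, φ, ψ => by
    simp only [av_succ, av_add M k]
    rw [Finset.sum_add_distrib, mul_add]

lemma av_mul_left (M : ℕ) : ∀ (k : ℕ) (c : ℝ) (φ : (Fin k → ℕ) → ℝ),
    av M k (fun l => c * φ l) = c * av M k φ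
  | 0, _, _ => rfl
  | k + 1, c, φ => by
    simp only [av_succ, av_mul_left M k]
    rw [← Finset.mul_sum]; ring

lemma av_sum (M : ℕ) (k : ℕ) {ι : Type} (s : Finset ι) (φ : ι → (Fin k → ℕ) → ℝ) :
    av M k (fun l => ∑ i ∈ s, φ i l) = ∑ i ∈ s, av M k (φ i) := by
  classical
  induction s using Finset.induction_on with
  | empty =>
    simp only [Finset.sum_empty]
    have := av_mul_left M k 0 (fun _ => 0)
    simpa using this
  | insert i s hi ih =>
    simp only [Finset.sum_insert hi]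
    rw [av_add, ih]

lemma av_comm (M k M' k' : ℕ) (φ : (Fin k → ℕ) → (Fin k' → ℕ) → ℝ) :
    av M k (fun l => av M' k' (fun l' => φ l l')) =
      av M' k' (fun l' => av M k (fun l => φ l l')) := by
  induction k with
  | zero => rfl
  | succ k ih =>
    simp only [av_succ]
    rw [av_mul_left, av_sum]
    congr 1
    exact Finset.sum_congr rfl fun a _ => ih _

/-- some value is at least the average -/
lemma exists_av_le {M : ℕ} (hM : 1 ≤ M) : ∀ (k : ℕ) (φ : (Fin k → ℕ) → ℝ),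
    ∃ l, (∀ i, l i < M) ∧ av M k φ ≤ φ l
  | 0, φ => ⟨Fin.elim0, fun i => i.elim0, le_rfl⟩
  | k + 1, φ => by
    have hne : (range M).Nonempty := ⟨0, by simp; omega⟩
    have : ∃ a ∈ range M, av M (k + 1) φ ≤ av M k (fun l => φ (Fin.cons a l)) := by
      apply Finset.exists_le_of_sum_le hne
      rw [Finset.sum_const, card_range, nsmul_eq_mul, av_succ]
      have : (M : ℝ) ≠ 0 := by positivity
      rw [← mul_assoc, mul_inv_cancel₀ this, one_mul]
    obtain ⟨a, ha, hle⟩ := this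
    obtain ⟨l, hl, hle2⟩ := exists_av_le hM k (fun l => φ (Fin.cons a l))
    refine ⟨Fin.cons a l, ?_, hle.trans hle2⟩
    intro i
    refine Fin.cases ?_ ?_ i
    · simpa using ha
    · intro i; simpa using hl i

lemma tendsto_av {J : Type} {F : Filter J} (M : ℕ) : ∀ (k : ℕ) {φ : J → (Fin k → ℕ) → ℝ}
    {ψ : (Fin k → ℕ) → ℝ}, (∀ l, Tendsto (fun j => φ j l) F (𝓝 (ψ l))) →
    Tendsto (fun j => av M k (φ j)) F (𝓝 (av M k ψ))
  | 0, _, _, h => h _
  | k + 1, φ, ψ, h => by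
    simp only [av_succ]
    exact (tendsto_finsetSum _ fun a _ => tendsto_av M k fun l => h _).const_mul _

lemma eventually_av_le {J : Type} {F : Filter J} (M : ℕ) : ∀ (k : ℕ) {φ : J → (Fin k → ℕ) → ℝ}
    {ψ : (Fin k → ℕ) → ℝ}, (∀ l, ∀ᶠ j in F, φ j l ≤ ψ l) →
    ∀ᶠ j in F, av M k (φ j) ≤ av M k ψ
  | 0, _, _, h => h _
  | k + 1, φ, ψ, h => by
    simp only [av_succ]
    have : ∀ᶠ j in F, ∀ a ∈ range M, av M k (fun l => φ j (Fin.cons a l)) ≤
        av M k (fun l => ψ (Fin.cons a l)) := by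
      rw [Filter.eventually_all_finset]
      exact fun a _ => eventually_av_le M k fun l => h _
    filter_upwards [this] with j hj
    gcongr with a ha
    exact hj a ha

/-- convexity -/
lemma sq_av_le {M : ℕ} (hM : 1 ≤ M) : ∀ (k : ℕ) (φ : (Fin k → ℕ) → ℝ),
    (av M k φ) ^ 2 ≤ av M k (fun l => φ l ^ 2)
  | 0, _ => le_rfl
  | k + 1, φ => by
    rw [av_succ, av_succ, mul_pow]
    have hM' : (0 : ℝ) < M := by positivity
    have h1 := sq_sum_le_card_mul_sum_sq (s := range M)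
      (f := fun a => av M k (fun l => φ (Fin.cons a l)))
    rw [card_range] at h1
    calc (M : ℝ)⁻¹ ^ 2 * (∑ a ∈ range M, av M k (fun l => φ (Fin.cons a l))) ^ 2
        ≤ (M : ℝ)⁻¹ ^ 2 * (M * ∑ a ∈ range M, (av M k (fun l => φ (Fin.cons a l))) ^ 2) := by
          gcongr
      _ = (M : ℝ)⁻¹ * ∑ a ∈ range M, (av M k (fun l => φ (Fin.cons a l))) ^ 2 := by
          field_simp
      _ ≤ (M : ℝ)⁻¹ * ∑ a ∈ range M, av M k (fun l => φ (Fin.cons a l) ^ 2) := by
          gcongr with a _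
          exact sq_av_le hM k _

lemma av_succ_succ (M k : ℕ) (φ : (Fin (k + 1) → ℕ) → (Fin (k + 1) → ℕ) → ℝ) :
    av M (k + 1) (fun l => av M (k + 1) (fun l' => φ l l')) =
      ((M : ℝ) ^ 2)⁻¹ * ∑ a ∈ range M, ∑ b ∈ range M, av M k (fun l => av M k (fun l' =>
        φ (Fin.cons a l) (Fin.cons b l'))) := by
  simp only [av_succ]
  rw [_root_.sq, mul_inv, mul_assoc]
  congr 1
  rw [Finset.mul_sum]
  refine Finset.sum_congr rfl fun a _ => ?_
  rw [av_mul_left, av_sum]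

variable {X : Type} [MeasurableSpace X]

namespace Sys

variable (S : Sys X)

lemma Sk_eq_av (M : ℕ) : ∀ (k : ℕ) (f : X → ℂ),
    S.Sk k M f = av M k (fun l => av M k (fun l' => ‖S.int (S.DD k l l' f)‖ ^ 2))
  | 0, _ => rfl
  | k + 1, f => by
    rw [av_succ_succ]
    simp only [Sk]
    congr 1
    refine Finset.sum_congr rfl fun a _ => Finset.sum_congr rfl fun b _ => ?_
    rw [Sk_eq_av M k]
    simp only [DD, Fin.cons_zero, Fin.tail_cons]

lemma Sk_nonneg (k M : ℕ) (f : X → ℂ) : 0 ≤ S.Sk k M f := by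
  rw [Sk_eq_av]
  exact av_nonneg M k fun l => av_nonneg M k fun l' => by positivity

lemma Sk_le_one {M : ℕ} (hM : 1 ≤ M) (k : ℕ) {f : X → ℂ} (hf : B1 f) : S.Sk k M f ≤ 1 := by
  rw [Sk_eq_av]
  calc _ ≤ av M k (fun _ => av M k (fun _ => (1 : ℝ))) := by
        refine av_mono M k fun l => av_mono M k fun l' => ?_
        exact pow_le_one₀ (norm_nonneg _) (S.norm_int_le (hf.DD S k l l'))
    _ = 1 := by rw [av_const hM, av_const hM]

lemma nu2_nonneg (f : X → ℂ) : 0 ≤ S.nu2 f :=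
  Real.iInf_nonneg fun r => S.Sk_nonneg 1 (2 ^ r) f

lemma nu2_le (r : ℕ) (f : X → ℂ) : S.nu2 f ≤ S.Sk 1 (2 ^ r) f :=
  ciInf_le ⟨0, by rintro _ ⟨r, rfl⟩; exact S.Sk_nonneg 1 (2 ^ r) f⟩ r

lemma nu2_le_one {f : X → ℂ} (hf : B1 f) : S.nu2 f ≤ 1 :=
  (S.nu2_le 0 f).trans (S.Sk_le_one (by simp) 1 hf)

/-! ### difference operators -/

lemma dd_mul (a b : ℤ) (f g : X → ℂ) :
    S.dd a b (fun x => f x * g x) = fun x => S.dd a b f x * S.dd a b g x := by
  funext x; simp only [dd, map_mul]; ring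

lemma dd_conj (a b : ℤ) (f : X → ℂ) :
    S.dd a b (fun x => conj (f x)) = fun x => conj (S.dd a b f x) := by
  funext x; simp only [dd, map_mul]

lemma dd_sh (a b n : ℤ) (f : X → ℂ) : S.dd a b (S.sh n f) = S.sh n (S.dd a b f) := by
  funext x; simp only [dd, sh, ← S.τ_add, add_comm]

lemma DD_mul : ∀ (k : ℕ) (l l' : Fin k → ℕ) (f g : X → ℂ),
    S.DD k l l' (fun x => f x * g x) = fun x => S.DD k l l' f x * S.DD k l l' g x
  | 0, _, _, _, _ => rfl
  | k + 1, l, l', f, g => by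
    simp only [DD]; rw [S.dd_mul, DD_mul k]

lemma DD_conj : ∀ (k : ℕ) (l l' : Fin k → ℕ) (f : X → ℂ),
    S.DD k l l' (fun x => conj (f x)) = fun x => conj (S.DD k l l' f x)
  | 0, _, _, _ => rfl
  | k + 1, l, l', f => by
    simp only [DD]; rw [S.dd_conj, DD_conj k]

lemma DD_sh : ∀ (k : ℕ) (l l' : Fin k → ℕ) (n : ℤ) (f : X → ℂ),
    S.DD k l l' (S.sh n f) = S.sh n (S.DD k l l' f)
  | 0, _, _, _, _ => rfl
  | k + 1, l, l', n, f => by
    simp only [DD]; rw [S.dd_sh, DD_sh k]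

lemma DD_dd (k : ℕ) (l l' : Fin k → ℕ) (a b : ℤ) (f : X → ℂ) :
    S.DD k l l' (S.dd a b f) = S.dd a b (S.DD k l l' f) := by
  have : S.dd a b f = fun x => S.sh a f x * conj (S.sh b f x) := rfl
  rw [this, S.DD_mul, S.DD_conj, S.DD_sh, S.DD_sh]; rfl

lemma DD_cons (k : ℕ) (a b : ℕ) (l l' : Fin k → ℕ) (f : X → ℂ) :
    S.DD (k + 1) (Fin.cons a l) (Fin.cons b l') f = S.dd a b (S.DD k l l' f) := by
  rw [← S.DD_dd]; simp only [DD, Fin.cons_zero, Fin.tail_cons]

end Sys

/-! ### low order functions -/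

lemma Low.B1 : ∀ {k : ℕ} {A : (Fin k → ℕ) → X → ℂ}, Low k A → ∀ l, B1 (A l)
  | 0, _, h, l => by rw [h l]; exact Rec.B1.one
  | k + 1, A, h, l => by
    obtain ⟨a, b, ha, hb, hA⟩ := h
    rw [← Fin.cons_self_tail l, hA]
    exact (ha _).mul (Low.B1 (hb _) _)

lemma Low.mul : ∀ {k : ℕ} {A A' : (Fin k → ℕ) → X → ℂ}, Low k A → Low k A' →
    Low k (fun l x => A l x * A' l x)
  | 0, _, _, h, h' => fun l => by simp only [h l, h' l, mul_one]
  | k + 1, A, A', h, h' => by
    obtain ⟨a, b, ha, hb, hA⟩ := h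
    obtain ⟨a', b', ha', hb', hA'⟩ := h'
    refine ⟨fun l x => a l x * a' l x, fun c l x => b c l x * b' c l x,
      fun l => (ha l).mul (ha' l), fun c => (hb c).mul (hb' c), fun c l => ?_⟩
    funext x; simp only [hA, hA']; ring

lemma Low.conj : ∀ {k : ℕ} {A : (Fin k → ℕ) → X → ℂ}, Low k A →
    Low k (fun l x => conj (A l x))
  | 0, _, h => fun l => by simp only [h l, map_one]
  | k + 1, A, h => by
    obtain ⟨a, b, ha, hb, hA⟩ := h
    refine ⟨fun l x => conj (a l x), fun c l x => conj (b c l x),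
      fun l => (ha l).conj, fun c => (hb c).conj, fun c l => ?_⟩
    funext x; simp only [hA, map_mul]

lemma Low.sh (S : Sys X) (n : ℤ) : ∀ {k : ℕ} {A : (Fin k → ℕ) → X → ℂ}, Low k A →
    Low k (fun l => S.sh n (A l))
  | 0, _, h => fun l => by simp only [h l]; rfl
  | k + 1, A, h => by
    obtain ⟨a, b, ha, hb, hA⟩ := h
    refine ⟨fun l => S.sh n (a l), fun c l => S.sh n (b c l),
      fun l => (ha l).sh S n, fun c => (hb c).sh S n, fun c l => ?_⟩
    funext x; simp only [hA, Sys.sh]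

/-- all vertices of the cube but the top one are of low order -/
lemma DD_top (S : Sys X) {f : X → ℂ} (hf : B1 f) : ∀ (k : ℕ) (l' : Fin k → ℕ),
    ∃ A : (Fin k → ℕ) → X → ℂ, Low k A ∧
      ∀ l, S.DD k l l' f = fun x => A l x * S.sh (∑ i, (l i : ℤ)) f x
  | 0, _ => ⟨fun _ _ => 1, fun _ => rfl, fun l => by
      funext x; simp [Sys.DD, S.sh_zero]⟩
  | k + 1, l' => by
    obtain ⟨A, hA, hAl⟩ := DD_top S hf k (Fin.tail l')
    refine ⟨fun l x => S.sh (l 0) (A (Fin.tail l)) x *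
      conj (S.sh (l' 0) (S.DD k (Fin.tail l) (Fin.tail l') f) x), ?_, fun l => ?_⟩
    · refine ⟨fun l x => conj (S.sh (l' 0) (S.DD k l (Fin.tail l') f) x),
        fun c l => S.sh c (A l), fun l => ((hf.DD S k _ _).sh S _).conj,
        fun c => hA.sh S c, fun c l => ?_⟩
      funext x; simp only [Fin.cons_zero, Fin.tail_cons]; ring
    · have h1 : S.DD (k + 1) l l' f = S.dd (l 0) (l' 0) (S.DD k (Fin.tail l) (Fin.tail l') f) := by
        rw [← S.DD_dd]; rfl
      rw [h1]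
      funext x
      simp only [Sys.dd]
      rw [show S.DD k (Fin.tail l) (Fin.tail l') f (S.τ (l 0) x) =
        A (Fin.tail l) (S.τ (l 0) x) * S.sh (∑ i, (Fin.tail l i : ℤ)) f (S.τ (l 0) x) by
          rw [hAl]]
      have h2 : S.sh (∑ i, (Fin.tail l i : ℤ)) f (S.τ (l 0) x) =
          S.sh (∑ i, (l i : ℤ)) f x := by
        simp only [Sys.sh]
        rw [← S.τ_add, Fin.sum_univ_succ, add_comm]; rfl
      rw [h2]
      simp only [Sys.sh]; ring

/-! ### cubic products -/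

lemma box_B1 : ∀ (k : ℕ) {χ : (Fin k → ℕ) → X → ℂ}, (∀ l, B1 (χ l)) → ∀ l l', B1 (box k χ l l')
  | 0, _, h, _, _ => h _
  | k + 1, χ, h, l, l' => box_B1 k (fun m => (h _).mul (h _).conj) _ _

lemma box_mul : ∀ (k : ℕ) (χ ψ : (Fin k → ℕ) → X → ℂ) (l l' : Fin k → ℕ),
    box k (fun m x => χ m x * ψ m x) l l' = fun x => box k χ l l' x * box k ψ l l' x
  | 0, _, _, _, _ => rfl
  | k + 1, χ, ψ, l, l' => by
    simp only [box]
    rw [← box_mul k]
    congr 1
    funext m x; simp only [map_mul]; ring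

lemma box_conj : ∀ (k : ℕ) (χ : (Fin k → ℕ) → X → ℂ) (l l' : Fin k → ℕ),
    box k (fun m x => conj (χ m x)) l l' = fun x => conj (box k χ l l' x)
  | 0, _, _, _ => rfl
  | k + 1, χ, l, l' => by
    simp only [box]
    rw [← box_conj k]
    congr 1
    funext m x; simp only [map_mul, Complex.conj_conj]

/-- all factors of a cubic product but the top one are of low order -/
lemma box_top : ∀ (k : ℕ) (χ : (Fin k → ℕ) → X → ℂ) (_ : ∀ l, B1 (χ l)) (l' : Fin k → ℕ),
    ∃ B : (Fin k → ℕ) → X → ℂ, Low k B ∧ ∀ l, box k χ l l' = fun x => χ l x * B l x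
  | 0, χ, hχ, l' => ⟨fun _ _ => 1, fun _ => rfl, fun l => by
      funext x; simp only [box, mul_one]; congr 1
      exact Subsingleton.elim _ _⟩
  | k + 1, χ, hχ, l' => by
    -- for each value of the first coordinate
    have h1 : ∀ c : ℕ, ∃ B : (Fin k → ℕ) → X → ℂ, Low k B ∧ ∀ l,
        box k (fun m x => χ (Fin.cons c m) x) l (Fin.tail l') =
          fun x => χ (Fin.cons c l) x * B l x :=
      fun c => box_top k (fun m => χ (Fin.cons c m)) (fun m => hχ _) (Fin.tail l')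
    choose B hB hBl using h1
    refine ⟨fun l x => B (l 0) (Fin.tail l) x *
      conj (box k (fun m x => χ (Fin.cons (l' 0) m) x) (Fin.tail l) (Fin.tail l') x), ?_, ?_⟩
    · refine ⟨fun l x => conj (box k (fun m x => χ (Fin.cons (l' 0) m) x) l (Fin.tail l') x),
        fun c l => B c l, fun l => (box_B1 k (fun m => hχ _) _ _).conj, hB, fun c l => ?_⟩
      funext x; simp only [Fin.cons_zero, Fin.tail_cons]; ring
    · intro l
      simp only [box]
      rw [box_mul k (fun m x => χ (Fin.cons (l 0) m) x)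
        (fun m x => conj (χ (Fin.cons (l' 0) m) x)), box_conj, hBl]
      funext x
      simp only [Fin.cons_self_tail]; ring

lemma box_const_one : ∀ (k : ℕ) (χ : (Fin k → ℕ) → X → ℂ) (x : X), (∀ l, χ l x = 1) →
    ∀ l l', box k χ l l' x = 1
  | 0, _, _, h, _, _ => h _
  | k + 1, χ, x, h, l, l' => by
    simp only [box]
    exact box_const_one k _ x (fun m => by simp [h]) _ _

/-- the cubic product of a fixed unimodular function is one -/
lemma box_fixed (k : ℕ) (hk : 1 ≤ k) (ω : X → ℂ) (x : X) (hω : ‖ω x‖ = 1) (l l' : Fin k → ℕ) :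
    box k (fun _ => ω) l l' x = 1 := by
  obtain ⟨k, rfl⟩ : ∃ j, k = j + 1 := ⟨k - 1, by omega⟩
  simp only [box]
  refine box_const_one k _ x (fun m => ?_) _ _
  rw [Complex.mul_conj, Complex.normSq_eq_norm_sq, hω]; simp

end Pool.Agent.Helper50.Rec
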