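import Mathlib
import Pool.Agent.Helper50.Rec.Defs
import Pool.Agent.Helper50.Rec.Basic

/-!
(copy of Helper22/Rec/CubeCS.lean with private auxiliary lemmas)
# REC-10: the cubic Cauchy-Schwarz inequality
-/

open MeasureTheory Polynomial Finset
open scoped BigOperators ComplexConjugate

namespace Pool.Agent.Helper50.Rec

variable {X : Type} [MeasurableSpace X]

/-! ### iterated averages -/

private lemma av_mul_left (M k : ℕ) (c : ℝ) (φ : (Fin k → ℕ) → ℝ) :
    av M k (fun l => c * φ l) = c * av M k φ := by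
  induction k with
  | zero => rfl
  | succ k ih =>
    simp only [av]
    rw [Finset.mul_sum, Finset.mul_sum, Finset.mul_sum]
    refine Finset.sum_congr rfl fun a _ => ?_
    rw [ih (fun l => φ (Fin.cons a l))]; ring

private lemma av_sum {ι : Type} (s : Finset ι) (M k : ℕ) (φ : ι → (Fin k → ℕ) → ℝ) :
    av M k (fun l => ∑ i ∈ s, φ i l) = ∑ i ∈ s, av M k (φ i) := by
  induction k with
  | zero => rfl
  | succ k ih =>
    simp only [av]
    rw [← Finset.mul_sum, Finset.sum_comm (s := s)]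
    congr 1
    refine Finset.sum_congr rfl fun a _ => ?_
    rw [ih (fun i l => φ i (Fin.cons a l))]

private lemma av_mono (M k : ℕ) {φ ψ : (Fin k → ℕ) → ℝ} (h : ∀ l, φ l ≤ ψ l) :
    av M k φ ≤ av M k ψ := by
  induction k with
  | zero => exact h _
  | succ k ih =>
    simp only [av]
    gcongr
    exact ih fun l => h _

private lemma av_nonneg (M k : ℕ) {φ : (Fin k → ℕ) → ℝ} (h : ∀ l, 0 ≤ φ l) : 0 ≤ av M k φ := by
  induction k with
  | zero => exact h _
  | succ k ih =>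
    simp only [av]
    exact mul_nonneg (by positivity) (Finset.sum_nonneg fun a _ => ih fun l => h _)

/-- Jensen for finite averages -/
private lemma pow_avg_le (M : ℕ) (hM : 1 ≤ M) (z : ℕ → ℝ) (hz : ∀ i, 0 ≤ z i) (p : ℕ) :
    ((M : ℝ)⁻¹ * ∑ a ∈ range M, z a) ^ p ≤ (M : ℝ)⁻¹ * ∑ a ∈ range M, z a ^ p := by
  have hM' : (M : ℝ) ≠ 0 := by exact_mod_cast (by omega : M ≠ 0)
  have := Real.pow_arith_mean_le_arith_mean_pow (range M) (fun _ => (M : ℝ)⁻¹) z
    (fun _ _ => by positivity) (by simp [hM']) (fun i _ => hz i) p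
  rw [Finset.mul_sum, Finset.mul_sum]
  exact this

/-- Jensen for iterated averages -/
private lemma pow_av_le (M k : ℕ) (hM : 1 ≤ M) {φ : (Fin k → ℕ) → ℝ} (h : ∀ l, 0 ≤ φ l) (p : ℕ) :
    (av M k φ) ^ p ≤ av M k (fun l => φ l ^ p) := by
  induction k with
  | zero => exact le_refl _
  | succ k ih =>
    simp only [av]
    refine (pow_avg_le M hM _ (fun a => av_nonneg M k fun l => h _) p).trans ?_
    gcongr
    exact ih fun l => h _

/-! ### closure properties of `Low` -/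

private lemma Low.B1 {k : ℕ} {A : (Fin k → ℕ) → X → ℂ} (hA : Low k A) (l : Fin k → ℕ) :
    Rec.B1 (A l) := by
  induction k with
  | zero => rw [hA l]; exact B1.one
  | succ k ih =>
    obtain ⟨a, b, ha, hb, hab⟩ := hA
    rw [← Fin.cons_self_tail l, hab]
    exact (ha _).mul (ih (hb _) _)

private lemma Low.mul {k : ℕ} {A B : (Fin k → ℕ) → X → ℂ} (hA : Low k A) (hB : Low k B) :
    Low k (fun l x => A l x * B l x) := by
  induction k with
  | zero => intro l; funext x; simp only [hA l, hB l, mul_one]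
  | succ k ih =>
    obtain ⟨a, b, ha, hb, hab⟩ := hA
    obtain ⟨a', b', ha', hb', hab'⟩ := hB
    refine ⟨fun l x => a l x * a' l x, fun c l x => b c l x * b' c l x,
      fun l => (ha l).mul (ha' l), fun c => ih (hb c) (hb' c), fun c l => ?_⟩
    funext x
    simp only [hab, hab']; ring

private lemma Low.conj {k : ℕ} {A : (Fin k → ℕ) → X → ℂ} (hA : Low k A) :
    Low k (fun l x => conj (A l x)) := by
  induction k with
  | zero => intro l; funext x; simp only [hA l, map_one]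
  | succ k ih =>
    obtain ⟨a, b, ha, hb, hab⟩ := hA
    refine ⟨fun l x => conj (a l x), fun c l x => conj (b c l x),
      fun l => (ha l).conj, fun c => ih (hb c), fun c l => ?_⟩
    funext x
    simp only [hab, map_mul]

/-! ### boxes -/

omit [MeasurableSpace X] in
private lemma box_cmul (k : ℕ) (κ : (Fin k → ℕ) → ℂ) (hκ : ∀ l, ‖κ l‖ ≤ 1) (χ : (Fin k → ℕ) → X → ℂ)
    (l l' : Fin k → ℕ) :
    ∃ c : ℂ, ‖c‖ ≤ 1 ∧ ∀ x, box k (fun m y => κ m * χ m y) l l' x = c * box k χ l l' x := by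
  induction k with
  | zero => exact ⟨κ Fin.elim0, hκ _, fun x => rfl⟩
  | succ k ih =>
    obtain ⟨c, hc, h⟩ := ih (fun m => κ (Fin.cons (l 0) m) * conj (κ (Fin.cons (l' 0) m)))
      (fun m => by
        rw [norm_mul, RCLike.norm_conj]
        exact mul_le_one₀ (hκ _) (norm_nonneg _) (hκ _))
      (fun m y => χ (Fin.cons (l 0) m) y * conj (χ (Fin.cons (l' 0) m) y))
      (Fin.tail l) (Fin.tail l')
    refine ⟨c, hc, fun x => ?_⟩
    rw [show box (k + 1) χ l l' x = box k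
      (fun m y => χ (Fin.cons (l 0) m) y * conj (χ (Fin.cons (l' 0) m) y))
      (Fin.tail l) (Fin.tail l') x from rfl, ← h x]
    show box k _ _ _ x = box k _ _ _ x
    congr 1
    funext m y
    simp only [map_mul]; ring

/-! ### the inequality -/

private lemma exists_phase (z : ℂ) : ∃ θ : ℂ, ‖θ‖ ≤ 1 ∧ θ * z = (‖z‖ : ℂ) := by
  by_cases h : z = 0
  · exact ⟨1, by simp, by simp [h]⟩
  · have hz : (‖z‖ : ℂ) ≠ 0 := by exact_mod_cast norm_ne_zero_iff.mpr h
    refine ⟨conj z / ‖z‖, ?_, ?_⟩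
    · rw [norm_div, RCLike.norm_conj]
      simp only [Complex.norm_real, norm_norm]
      exact div_self_le_one _
    · rw [div_mul_eq_mul_div, mul_comm (conj z), Complex.mul_conj, Complex.normSq_eq_norm_sq,
        div_eq_iff hz]
      push_cast; ring

/-- one step of the Cauchy-Schwarz inequality, for a fixed value of the remaining variables -/
private lemma cube_step (S : Sys X) (N M : ℕ) (hN : 1 ≤ N)
    (a : X → ℂ) (ha : B1 a) (w : ℕ → ℕ → X → ℂ) (hw : ∀ n c, B1 (w n c)) :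
    ∃ θ : ℕ → ℂ, (∀ c, ‖θ c‖ ≤ 1) ∧
      ((M : ℝ)⁻¹ * ∑ c ∈ range M, ‖(N : ℂ)⁻¹ * ∑ n ∈ range N,
        S.int (fun x => a x * w n c x)‖) ^ 2 ≤
      ((M : ℝ) ^ 2)⁻¹ * ∑ c ∈ range M, ∑ c' ∈ range M, ‖(N : ℂ)⁻¹ * ∑ n ∈ range N,
        S.int (fun x => (θ c * w n c x) * conj (θ c' * w n c' x))‖ := by
  choose θ hθ1 hθ2 using fun c => exists_phase ((N : ℂ)⁻¹ * ∑ n ∈ range N,
        S.int (fun x => a x * w n c x))
  refine ⟨θ, hθ1, ?_⟩
  set v : ℕ → ℕ → X → ℂ := fun n c x => θ c * w n c x with hv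
  have hvB : ∀ n c, B1 (v n c) := fun n c => (hw n c).cmul (hθ1 c)
  -- the left-hand side as an average of integrals
  have e1 : (((M : ℝ)⁻¹ * ∑ c ∈ range M, ‖(N : ℂ)⁻¹ * ∑ n ∈ range N,
        S.int (fun x => a x * w n c x)‖ : ℝ) : ℂ) =
      (N : ℂ)⁻¹ * ∑ n ∈ range N, S.int (fun x => avg M (v n) x * a x) := by
    push_cast
    simp_rw [← hθ2]
    have : ∀ n, S.int (fun x => avg M (v n) x * a x) =
        (M : ℂ)⁻¹ * ∑ c ∈ range M, S.int (fun x => v n c x * a x) :=
      fun n => S.int_avg_mul (hvB n) M ha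
    simp_rw [this]
    rw [← Finset.mul_sum, Finset.sum_comm, mul_left_comm, Finset.mul_sum (range M) _ (N : ℂ)⁻¹]
    congr 1
    refine Finset.sum_congr rfl fun c _ => ?_
    rw [mul_left_comm, Finset.mul_sum]
    congr 1
    refine Finset.sum_congr rfl fun n _ => ?_
    rw [← S.int_cmul]
    congr 1; funext x
    simp only [hv]; ring
  have e2 : (M : ℝ)⁻¹ * ∑ c ∈ range M, ‖(N : ℂ)⁻¹ * ∑ n ∈ range N,
        S.int (fun x => a x * w n c x)‖ ≤
      (N : ℝ)⁻¹ * ∑ n ∈ range N, ‖S.int (fun x => avg M (v n) x * a x)‖ := by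
    have h0 : 0 ≤ (M : ℝ)⁻¹ * ∑ c ∈ range M, ‖(N : ℂ)⁻¹ * ∑ n ∈ range N,
        S.int (fun x => a x * w n c x)‖ := by positivity
    rw [← abs_of_nonneg h0, ← Real.norm_eq_abs, ← Complex.norm_real, e1, norm_mul, norm_inv, Complex.norm_natCast]
    gcongr
    exact norm_sum_le _ _
  have e3 : ((N : ℝ)⁻¹ * ∑ n ∈ range N, ‖S.int (fun x => avg M (v n) x * a x)‖) ^ 2 ≤
      (N : ℝ)⁻¹ * ∑ n ∈ range N, S.sq (avg M (v n)) := by
    refine (pow_avg_le N hN _ (fun _ => norm_nonneg _) 2).trans ?_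
    gcongr with n _
    exact S.cs_one (B1.avg (hvB n) M) ha
  have e4 : (((N : ℝ)⁻¹ * ∑ n ∈ range N, S.sq (avg M (v n)) : ℝ) : ℂ) =
      ((M : ℂ) ^ 2)⁻¹ * ∑ c ∈ range M, ∑ c' ∈ range M, (N : ℂ)⁻¹ * ∑ n ∈ range N,
        S.int (fun x => v n c x * conj (v n c' x)) := by
    push_cast
    simp_rw [S.sq_avg (hvB _) M]
    rw [← Finset.mul_sum, mul_left_comm]
    congr 1
    rw [Finset.sum_comm, Finset.mul_sum]
    refine Finset.sum_congr rfl fun c _ => ?_
    rw [Finset.sum_comm, Finset.mul_sum]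
  have e5 : (N : ℝ)⁻¹ * ∑ n ∈ range N, S.sq (avg M (v n)) ≤
      ((M : ℝ) ^ 2)⁻¹ * ∑ c ∈ range M, ∑ c' ∈ range M, ‖(N : ℂ)⁻¹ * ∑ n ∈ range N,
        S.int (fun x => v n c x * conj (v n c' x))‖ := by
    have h0 : 0 ≤ (N : ℝ)⁻¹ * ∑ n ∈ range N, S.sq (avg M (v n)) :=
      mul_nonneg (by positivity) (Finset.sum_nonneg fun n _ => S.sq_nonneg _)
    rw [← abs_of_nonneg h0, ← Real.norm_eq_abs, ← Complex.norm_real, e4, norm_mul, norm_inv, norm_pow,
      Complex.norm_natCast]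
    gcongr
    refine (norm_sum_le _ _).trans (Finset.sum_le_sum fun c _ => norm_sum_le _ _)
  calc _ ≤ ((N : ℝ)⁻¹ * ∑ n ∈ range N, ‖S.int (fun x => avg M (v n) x * a x)‖) ^ 2 := by
        gcongr
    _ ≤ _ := e3.trans e5

/-- REC-10 -/
theorem cubeCS (S : Sys X) (k N M : ℕ) (hM : 1 ≤ M) (hN : 1 ≤ N)
    (A : (Fin k → ℕ) → X → ℂ) (hA : Low k A)
    (F : ℕ → X → ℂ) (hF : ∀ n, B1 (F n)) (χ : (Fin k → ℕ) → X → ℂ) (hχ : ∀ l, B1 (χ l)) :
    (av M k (fun l => ‖(N : ℂ)⁻¹ * ∑ n ∈ range N,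
        S.int (fun x => A l x * (S.sh (∑ i, (l i : ℤ)) (F n) x * χ l x))‖)) ^ (2 ^ k) ≤
      av M k (fun l => av M k (fun l' => ‖(N : ℂ)⁻¹ * ∑ n ∈ range N,
        S.int (fun x => S.DD k l l' (F n) x * box k χ l l' x)‖)) := by
  induction k generalizing F with
  | zero =>
    simp only [av, pow_zero, pow_one]
    refine le_of_eq ?_
    congr 2
    refine Finset.sum_congr rfl fun n _ => ?_
    congr 1; funext x
    rw [hA]
    simp [Sys.DD, box, Sys.sh, S.τ_zero]
  | succ k ih =>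
    obtain ⟨a, b, ha, hb, hab⟩ := hA
    -- the functions in the Cauchy-Schwarz step
    set w : (Fin k → ℕ) → ℕ → ℕ → X → ℂ := fun l n c x =>
      b c l x * (S.sh (∑ i, (l i : ℤ)) (S.sh (c : ℤ) (F n)) x * χ (Fin.cons c l) x) with hw
    have hwB : ∀ l n c, B1 (w l n c) := fun l n c =>
      ((hb c).B1 l).mul ((((hF n).sh S _).sh S _).mul (hχ _))
    choose θ hθ hstep using fun l => cube_step S N M hN (a l) (ha l) (w l) (hwB l)
    -- notation for the pieces
    set χ' : ℕ → ℕ → (Fin k → ℕ) → X → ℂ := fun c c' l x =>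
      χ (Fin.cons c l) x * conj (χ (Fin.cons c' l) x) with hχ'
    set Q : ℕ → ℕ → (Fin k → ℕ) → ℝ := fun c c' l => ‖(N : ℂ)⁻¹ * ∑ n ∈ range N,
        S.int (fun x => (θ l c * w l n c x) * conj (θ l c' * w l n c' x))‖ with hQ
    set R : ℕ → ℕ → (Fin k → ℕ) → (Fin k → ℕ) → ℝ := fun c c' l l' =>
      ‖(N : ℂ)⁻¹ * ∑ n ∈ range N, S.int (fun x => S.DD k l l' (S.dd c c' (F n)) x *
        box k (χ' c c') l l' x)‖ with hR
    -- the left-hand side
    have hL : av M (k + 1) (fun l => ‖(N : ℂ)⁻¹ * ∑ n ∈ range N,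
        S.int (fun x => A l x * (S.sh (∑ i, (l i : ℤ)) (F n) x * χ l x))‖) =
      av M k (fun l => (M : ℝ)⁻¹ * ∑ c ∈ range M, ‖(N : ℂ)⁻¹ * ∑ n ∈ range N,
        S.int (fun x => a l x * w l n c x)‖) := by
      simp only [av]
      rw [← av_sum, ← av_mul_left]
      congr 1; funext l
      congr 1
      refine Finset.sum_congr rfl fun c _ => ?_
      congr 2
      refine Finset.sum_congr rfl fun n _ => ?_
      congr 1; funext x
      rw [hab, Fin.sum_univ_succ]
      simp only [Fin.cons_zero, Fin.cons_succ, hw]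
      rw [S.sh_sh]
      ring
    -- the right-hand side
    have hRR : av M (k + 1) (fun l => av M (k + 1) (fun l' => ‖(N : ℂ)⁻¹ * ∑ n ∈ range N,
        S.int (fun x => S.DD (k + 1) l l' (F n) x * box (k + 1) χ l l' x)‖)) =
      (M : ℝ)⁻¹ * ∑ c ∈ range M, (M : ℝ)⁻¹ * ∑ c' ∈ range M,
        av M k (fun l => av M k (fun l' => R c c' l l')) := by
      simp only [av]
      congr 1
      refine Finset.sum_congr rfl fun c _ => ?_
      rw [av_mul_left, av_sum]
      rfl
    rw [hL, hRR]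
    -- the step
    have h1 : (av M k (fun l => (M : ℝ)⁻¹ * ∑ c ∈ range M, ‖(N : ℂ)⁻¹ * ∑ n ∈ range N,
        S.int (fun x => a l x * w l n c x)‖)) ^ 2 ≤
        (M : ℝ)⁻¹ * ∑ c ∈ range M, (M : ℝ)⁻¹ * ∑ c' ∈ range M, av M k (Q c c') := by
      refine (pow_av_le M k hM (fun l => by positivity) 2).trans ?_
      have : ∀ l, ((M : ℝ)⁻¹ * ∑ c ∈ range M, ‖(N : ℂ)⁻¹ * ∑ n ∈ range N,
        S.int (fun x => a l x * w l n c x)‖) ^ 2 ≤
          (M : ℝ)⁻¹ * ∑ c ∈ range M, (M : ℝ)⁻¹ * ∑ c' ∈ range M, Q c c' l := by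
        intro l
        refine (hstep l).trans_eq ?_
        rw [pow_two, mul_inv, mul_assoc, Finset.mul_sum (range M) _ (M : ℝ)⁻¹]
      refine (av_mono M k this).trans_eq ?_
      rw [av_mul_left, av_sum]
      congr 1
      refine Finset.sum_congr rfl fun c _ => ?_
      rw [av_mul_left, av_sum]
    -- induction hypothesis
    have h2 : ∀ c c', (av M k (Q c c')) ^ (2 ^ k) ≤
        av M k (fun l => av M k (fun l' => R c c' l l')) := by
      intro c c'
      have hlow : Low k (fun l x => b c l x * conj (b c' l x)) := (hb c).mul (hb c').conj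
      have hκ : ∀ l, ‖θ l c * conj (θ l c')‖ ≤ 1 := fun l => by
        rw [norm_mul, RCLike.norm_conj]
        exact mul_le_one₀ (hθ _ _) (norm_nonneg _) (hθ _ _)
      have hχB : ∀ l, B1 (χ' c c' l) := fun l => (hχ _).mul (hχ _).conj
      have := ih (fun l x => b c l x * conj (b c' l x)) hlow
        (fun n => S.dd c c' (F n)) (fun n => (hF n).dd S _ _)
        (fun l x => (θ l c * conj (θ l c')) * χ' c c' l x)
        (fun l => (hχB l).cmul (hκ l))
      refine le_trans (le_of_eq ?_) (this.trans ?_)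
      · congr 2; funext l
        simp only [hQ]
        congr 2
        refine Finset.sum_congr rfl fun n _ => ?_
        congr 1; funext x
        simp only [hw, hχ', map_mul, Sys.dd, Sys.sh]
        simp only [← S.τ_add]
        rw [add_comm (c : ℤ), add_comm (c' : ℤ)]
        ring
      · refine av_mono M k fun l => av_mono M k fun l' => ?_
        obtain ⟨e, he, hbox⟩ := box_cmul k (fun l => θ l c * conj (θ l c')) hκ (χ' c c') l l'
        have : ∀ n, S.int (fun x => S.DD k l l' (S.dd c c' (F n)) x *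
            box k (fun l x => θ l c * conj (θ l c') * χ' c c' l x) l l' x) =
            e * S.int (fun x => S.DD k l l' (S.dd c c' (F n)) x * box k (χ' c c') l l' x) := by
          intro n
          rw [← S.int_cmul]
          congr 1; funext x
          rw [hbox]; ring
        simp_rw [this]
        rw [← Finset.mul_sum, mul_left_comm, norm_mul]
        exact mul_le_of_le_one_left (norm_nonneg _) he
    -- conclusion
    have hQ0 : ∀ c c', 0 ≤ av M k (Q c c') := fun c c' => av_nonneg M k fun l => norm_nonneg _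
    calc _ = ((av M k (fun l => (M : ℝ)⁻¹ * ∑ c ∈ range M, ‖(N : ℂ)⁻¹ * ∑ n ∈ range N,
        S.int (fun x => a l x * w l n c x)‖)) ^ 2) ^ (2 ^ k) := by
          rw [← pow_mul]; congr 1; rw [pow_succ]; ring
      _ ≤ ((M : ℝ)⁻¹ * ∑ c ∈ range M, (M : ℝ)⁻¹ * ∑ c' ∈ range M, av M k (Q c c')) ^ (2 ^ k) := by
          gcongr
      _ ≤ (M : ℝ)⁻¹ * ∑ c ∈ range M, ((M : ℝ)⁻¹ * ∑ c' ∈ range M, av M k (Q c c')) ^ (2 ^ k) :=
          pow_avg_le M hM _ (fun c => mul_nonneg (by positivity)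
            (Finset.sum_nonneg fun c' _ => hQ0 c c')) _
      _ ≤ (M : ℝ)⁻¹ * ∑ c ∈ range M, (M : ℝ)⁻¹ * ∑ c' ∈ range M,
          (av M k (Q c c')) ^ (2 ^ k) := by
          gcongr with c _
          exact pow_avg_le M hM _ (fun c' => hQ0 c c') _
      _ ≤ _ := by
          gcongr with c _ c' _
          exact h2 c c'

end Pool.Agent.Helper50.Rec
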