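import Mathlib
import Pool.Agent.Helper50.Rec.Av

/-!
# Eigenfunctions, ergodicity, orthogonality, weak limits
-/

open MeasureTheory Finset Filter Topology
open scoped BigOperators ComplexConjugate

set_option linter.unusedSectionVars false
set_option linter.unusedVariables false

namespace Pool.Agent.Helper50.Rec

variable {X : Type} [MeasurableSpace X]

lemma ec_eq_one_iff (t : ℝ) : ec t = 1 ↔ ∃ z : ℤ, t = z := by
  constructor
  · intro h
    unfold ec at h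
    rw [Complex.exp_eq_one_iff] at h
    obtain ⟨n, hn⟩ := h
    refine ⟨n, ?_⟩
    have hpi : (2 * (Real.pi : ℂ) * Complex.I) ≠ 0 := by
      simp [Real.pi_ne_zero]
    have h2 : ((t : ℝ) : ℂ) * (2 * Real.pi * Complex.I) = (n : ℂ) * (2 * Real.pi * Complex.I) := by
      rw [← hn]; ring
    have h3 := mul_right_cancel₀ hpi h2
    exact_mod_cast h3
  · rintro ⟨z, rfl⟩; exact ec_int z

lemma ec_ne_zero (t : ℝ) : ec t ≠ 0 := by
  intro h; have := norm_ec t; rw [h] at this; simp at this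

lemma ec_mul_conj (t : ℝ) : ec t * conj (ec t) = 1 := by
  rw [Complex.mul_conj, Complex.normSq_eq_norm_sq, norm_ec]; simp

lemma mul_conj_of_norm_one {z : ℂ} (h : ‖z‖ = 1) : z * conj z = 1 := by
  rw [Complex.mul_conj, Complex.normSq_eq_norm_sq, h]; simp

lemma ec_sub (s t : ℝ) : ec (s - t) = ec s * conj (ec t) := by
  rw [sub_eq_add_neg, ec_add, ec_neg]

namespace Sys

variable (S : Sys X)

lemma ergodic : Ergodic (S.τ 1) S.μ := by
  refine ⟨S.mp 1, ⟨fun s hs h => ?_⟩⟩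
  rw [Filter.eventuallyConst_set]
  rcases S.erg s hs h with h0 | h0
  · right; exact measure_eq_zero_iff_ae_notMem.1 h0
  · left
    rw [measure_eq_zero_iff_ae_notMem] at h0
    exact h0.mono fun x hx => by simpa using hx

/-- invariant functions are constant -/
lemma ae_const {g : X → ℂ} (hg : B1 g) (h : ∀ᵐ x ∂S.μ, g (S.τ 1 x) = g x) :
    ∃ c : ℂ, ‖c‖ ≤ 1 ∧ ∀ᵐ x ∂S.μ, g x = c := by
  obtain ⟨c, hc⟩ := S.ergodic.ae_eq_const_of_ae_eq_comp_ae hg.1.aestronglyMeasurable h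
  have hc' : ∀ᵐ x ∂S.μ, g x = c := hc
  obtain ⟨x, hx⟩ := hc'.exists
  exact ⟨c, by rw [← hx]; exact hg.2 x, hc'⟩

variable {S}

lemma Eig.mul_conj {s t : ℝ} {χ ψ : X → ℂ} (h1 : S.Eig s χ) (h2 : S.Eig t ψ) :
    S.Eig (s - t) (fun x => χ x * conj (ψ x)) := by
  refine ⟨h1.1.mul h2.1.conj, ?_, ?_⟩
  · filter_upwards [h1.2.1, h2.2.1] with x hx hy
    rw [norm_mul, RCLike.norm_conj, hx, hy, one_mul]
  · filter_upwards [h1.2.2, h2.2.2] with x hx hy
    rw [hx, hy, map_mul, ec_sub]; ring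

lemma Eig.conj {t : ℝ} {χ : X → ℂ} (h : S.Eig t χ) :
    S.Eig (-t) (fun x => conj (χ x)) := by
  refine ⟨h.1.conj, ?_, ?_⟩
  · filter_upwards [h.2.1] with x hx
    rw [RCLike.norm_conj, hx]
  · filter_upwards [h.2.2] with x hx
    rw [hx, map_mul, ec_neg]

lemma Eig.of_ec {s t : ℝ} {χ : X → ℂ} (h : S.Eig s χ) (e : ec s = ec t) : S.Eig t χ :=
  ⟨h.1, h.2.1, by rw [← e]; exact h.2.2⟩

lemma Eig.iter {t : ℝ} {χ : X → ℂ} (h : S.Eig t χ) (n : ℤ) :
    ∀ᵐ x ∂S.μ, χ (S.τ n x) = ec (n * t) * χ x := by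
  have hpos : ∀ n : ℕ, ∀ᵐ x ∂S.μ, χ (S.τ n x) = ec (n * t) * χ x := by
    intro n
    induction n with
    | zero => simp [S.τ_zero, ec_zero]
    | succ n ih =>
      filter_upwards [ih, S.ae_sh n h.2.2] with x h1 h2
      rw [show ((n + 1 : ℕ) : ℤ) = 1 + (n : ℤ) by push_cast; ring, S.τ_add, h2, h1,
        show ((n + 1 : ℕ) : ℝ) * t = t + n * t by push_cast; ring, ec_add]
      ring
  rcases Int.eq_nat_or_neg n with ⟨m, rfl | rfl⟩
  · exact hpos m
  · have := S.ae_sh (-(m : ℤ)) (hpos m)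
    filter_upwards [this] with x hx
    rw [← S.τ_add, add_neg_cancel, S.τ_zero] at hx
    rw [hx, show ((-(m : ℤ) : ℤ) : ℝ) * t = -(m * t) by push_cast; ring, ec_neg, ← mul_assoc,
      mul_comm ((starRingEnd ℂ) (ec (m * t))), ec_mul_conj, one_mul]

lemma Eig.inv {t : ℝ} {χ : X → ℂ} (h : S.Eig t χ) {R : ℕ} (hR : ∃ z : ℤ, (R : ℝ) * t = z) :
    S.Inv R χ := by
  refine ⟨h.1, ?_⟩
  filter_upwards [h.iter R] with x hx
  rw [hx]
  have : ec (((R : ℤ) : ℝ) * t) = 1 := by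
    rw [ec_eq_one_iff]; obtain ⟨z, hz⟩ := hR; exact ⟨z, by rw [← hz]; push_cast; rfl⟩
  rw [this, one_mul]

/-- eigenfunctions with the same eigenvalue are proportional -/
lemma Eig.prop {t : ℝ} {χ ψ : X → ℂ} (h1 : S.Eig t χ) (h2 : S.Eig t ψ) :
    ∃ κ : ℂ, ‖κ‖ = 1 ∧ ∀ᵐ x ∂S.μ, χ x = κ * ψ x := by
  have h := h1.mul_conj h2
  rw [sub_self] at h
  obtain ⟨c, -, hc⟩ := S.ae_const h.1 (by
    filter_upwards [h.2.2] with x hx
    rw [hx, ec_zero, one_mul])
  refine ⟨c, ?_, ?_⟩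
  · obtain ⟨x, hx, hy⟩ := (hc.and h.2.1).exists
    rw [← hx]; exact hy
  · filter_upwards [hc, h2.2.1] with x hx hy
    rw [← hx]
    have := mul_conj_of_norm_one hy
    calc χ x = χ x * (ψ x * (starRingEnd ℂ) (ψ x)) := by rw [this, mul_one]
      _ = _ := by ring

variable (S)

/-- orthogonality of a periodic function and an eigenfunction -/
lemma int_mul_eig_eq_zero {W χ : X → ℂ} {R : ℕ} {t : ℝ} (hW : S.Inv R W) (hχ : S.Eig t χ)
    (h : ∀ z : ℤ, (R : ℝ) * t ≠ z) : S.int (fun x => W x * χ x) = 0 := by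
  have h1 : S.int (fun x => W x * χ x) = ec (((R : ℤ) : ℝ) * t) * S.int (fun x => W x * χ x) := by
    conv_lhs => rw [← S.int_sh R]
    rw [← S.int_cmul]
    apply S.int_congr_ae
    filter_upwards [hW.2, hχ.iter R] with x hx hy
    simp only [sh]; rw [hx, hy]; ring
  have h2 : ec (((R : ℤ) : ℝ) * t) ≠ 1 := by
    rw [Ne, ec_eq_one_iff]; rintro ⟨z, hz⟩; exact h z (by rw [← hz]; push_cast; rfl)
  have h3 : (1 - ec (((R : ℤ) : ℝ) * t)) * S.int (fun x => W x * χ x) = 0 := by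
    rw [sub_mul, one_mul, ← h1, sub_self]
  rcases mul_eq_zero.1 h3 with h4 | h4
  · exact absurd (sub_eq_zero.1 h4).symm h2
  · exact h4

lemma half_B1 {u v : X → ℂ} (hu : B1 u) (hv : B1 v) : B1 (fun x => (u x - v x) / 2) := by
  refine ⟨(hu.1.sub hv.1).div_const 2, fun x => ?_⟩
  rw [norm_div]
  have := norm_sub_le (u x) (v x)
  have h1 := hu.2 x
  have h2 := hv.2 x
  rw [div_le_one (by simp)]
  simp only [Complex.norm_ofNat]
  linarith

lemma sq_half (w : X → ℂ) : S.sq (fun x => w x / 2) = S.sq w / 4 := by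
  unfold sq
  have : (fun x => ‖w x / 2‖ ^ 2) = fun x => ‖w x‖ ^ 2 * (1 / 4) := by
    funext x; rw [norm_div]; simp only [Complex.norm_ofNat]; ring
  rw [this, integral_mul_const]; ring

/-- comparison of two integrals -/
lemma norm_int_sub_le {g u v : X → ℂ} (hg : B1 g) (hu : B1 u) (hv : B1 v) :
    ‖S.int (fun x => g x * u x) - S.int (fun x => g x * v x)‖ ≤
      Real.sqrt (S.sq (fun x => u x - v x)) := by
  have h1 : S.int (fun x => g x * u x) - S.int (fun x => g x * v x) =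
      2 * S.int (fun x => (u x - v x) / 2 * g x) := by
    rw [← S.int_cmul]
    unfold int
    rw [← integral_sub (S.integrable (hg.mul hu)) (S.integrable (hg.mul hv))]
    congr 1; funext x; ring
  have h2 := S.cs_one (half_B1 hu hv) hg
  rw [S.sq_half] at h2
  rw [h1, norm_mul, Complex.norm_ofNat]
  have h3 : (2 * ‖S.int (fun x => (u x - v x) / 2 * g x)‖) ^ 2 ≤ S.sq (fun x => u x - v x) := by
    rw [mul_pow]; linarith
  exact Real.le_sqrt_of_sq_le h3

/-- a function which can be approximated by periodic functions is orthogonal to `RatNull` ones -/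
lemma int_ratNull {h ρ : X → ℂ} (hh : B1 h) (hρ : B1 ρ) (hr : S.RatNull h)
    (happ : ∀ ε : ℝ, 0 < ε → ∃ R : ℕ, 1 ≤ R ∧ ∃ G : X → ℂ, S.Inv R G ∧
      S.sq (fun x => ρ x - G x) ≤ ε) : S.int (fun x => h x * conj (ρ x)) = 0 := by
  by_contra hne
  have hpos : 0 < ‖S.int (fun x => h x * conj (ρ x))‖ := norm_pos_iff.2 hne
  set d := ‖S.int (fun x => h x * conj (ρ x))‖ with hd
  obtain ⟨R, hR, G, hG, hle⟩ := happ ((d / 2) ^ 2) (by positivity)
  have h1 := S.norm_int_sub_le hh hρ.conj hG.1.conj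
  rw [hr R hR G hG, sub_zero, ← hd] at h1
  have h2 : S.sq (fun x => conj (ρ x) - conj (G x)) = S.sq (fun x => ρ x - G x) := by
    rw [← S.sq_conj]; congr 1; funext x; simp
  rw [h2] at h1
  have h3 : Real.sqrt (S.sq (fun x => ρ x - G x)) ≤ d / 2 :=
    Real.sqrt_le_iff.2 ⟨by positivity, hle⟩
  linarith

end Sys

end Pool.Agent.Helper50.Rec
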