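import Mathlib
import Pool.Agent.Helper50.Rec.Defs
import Pool.Agent.Helper50.Rec.Basic
import Pool.Agent.Helper38.Rec.SkAnti

/-!
# REC-2: lower bound by the second seminorms
-/

open MeasureTheory Polynomial Finset Filter Topology
open scoped BigOperators ComplexConjugate

namespace Pool.Agent.Helper50.Rec

variable {X : Type} [MeasurableSpace X]

private lemma av_const_mul (M : ℕ) (c : ℝ) : ∀ (k : ℕ) (φ : (Fin k → ℕ) → ℝ),
    av M k (fun l => c * φ l) = c * av M k φ := by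
  intro k
  induction k with
  | zero => intro φ; rfl
  | succ k ih =>
    intro φ
    simp only [av]
    rw [show (∑ a ∈ range M, av M k fun l => c * φ (Fin.cons a l)) =
      ∑ a ∈ range M, c * av M k (fun l => φ (Fin.cons a l)) from
      Finset.sum_congr rfl fun a _ => ih _]
    rw [← Finset.mul_sum]; ring

private lemma av_sum (M : ℕ) {ι : Type} (s : Finset ι) : ∀ (k : ℕ) (φ : ι → (Fin k → ℕ) → ℝ),
    av M k (fun l => ∑ i ∈ s, φ i l) = ∑ i ∈ s, av M k (φ i) := by
  intro k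
  induction k with
  | zero => intro φ; rfl
  | succ k ih =>
    intro φ
    simp only [av]
    rw [show (∑ a ∈ range M, av M k fun l => ∑ i ∈ s, φ i (Fin.cons a l)) =
      ∑ a ∈ range M, ∑ i ∈ s, av M k (fun l => φ i (Fin.cons a l)) from
      Finset.sum_congr rfl fun a _ => ih _]
    rw [Finset.sum_comm, Finset.mul_sum]

private lemma av_mono (M : ℕ) : ∀ (k : ℕ) {φ ψ : (Fin k → ℕ) → ℝ}, (∀ l, φ l ≤ ψ l) →
    av M k φ ≤ av M k ψ := by
  intro k
  induction k with
  | zero => intro φ ψ h; exact h _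
  | succ k ih =>
    intro φ ψ h
    simp only [av]
    gcongr with a _
    exact ih fun l => h _

/-- double average over two vectors of shifts -/
private lemma av_av_succ (M k : ℕ) (ψ : (Fin (k + 1) → ℕ) → (Fin (k + 1) → ℕ) → ℝ) :
    av M (k + 1) (fun l => av M (k + 1) (fun l' => ψ l l')) =
      ((M : ℝ) ^ 2)⁻¹ * ∑ a ∈ range M, ∑ b ∈ range M,
        av M k (fun l => av M k (fun l' => ψ (Fin.cons a l) (Fin.cons b l'))) := by
  simp only [av]
  rw [show (∑ a ∈ range M, av M k fun l => (M : ℝ)⁻¹ * ∑ b ∈ range M, av M k fun l' =>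
      ψ (Fin.cons a l) (Fin.cons b l')) = ∑ a ∈ range M, (M : ℝ)⁻¹ * ∑ b ∈ range M,
      av M k (fun l => av M k fun l' => ψ (Fin.cons a l) (Fin.cons b l')) from
    Finset.sum_congr rfl fun a _ => by rw [av_const_mul, av_sum]]
  rw [← Finset.mul_sum, ← mul_assoc]
  congr 1
  rw [_root_.sq, mul_inv]

namespace Sys

variable (S : Sys X)

/-- averages of a functional over the iterated differences -/
private noncomputable def AA (M : ℕ) (Φ : (X → ℂ) → ℝ) (k : ℕ) (f : X → ℂ) : ℝ :=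
  av M k (fun l => av M k (fun l' => Φ (S.DD k l l' f)))

private lemma AA_zero (M : ℕ) (Φ : (X → ℂ) → ℝ) (f : X → ℂ) : S.AA M Φ 0 f = Φ f := rfl

private lemma AA_succ (M : ℕ) (Φ : (X → ℂ) → ℝ) (k : ℕ) (f : X → ℂ) :
    S.AA M Φ (k + 1) f = ((M : ℝ) ^ 2)⁻¹ * ∑ a ∈ range M, ∑ b ∈ range M,
      S.AA M Φ k (S.dd a b f) := by
  unfold AA
  rw [av_av_succ]
  simp only [DD, Fin.cons_zero, Fin.tail_cons]

private lemma AA_Sk_one (M N k : ℕ) : ∀ f : X → ℂ,
    S.AA M (S.Sk 1 N) k f = S.Sg (List.replicate k M ++ [N]) f := by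
  induction k with
  | zero => intro f; rw [AA_zero, S.Sk_eq_Sg]; rfl
  | succ k ih =>
    intro f
    rw [AA_succ]
    simp only [ih, List.replicate_succ, List.cons_append, Sg]

private lemma Sk_nonneg (k M : ℕ) (f : X → ℂ) : 0 ≤ S.Sk k M f := by
  rw [S.Sk_eq_Sg]; exact S.Sg_nonneg _ f

private lemma tendsto_nu2 {f : X → ℂ} (hf : B1 f) :
    Tendsto (fun R : ℕ => S.Sk 1 (2 ^ R) f) atTop (𝓝 (S.nu2 f)) := by
  refine tendsto_atTop_ciInf (fun r s h => Rec.Sk_anti S 1 f hf r s h) ⟨0, ?_⟩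
  rintro _ ⟨R, rfl⟩
  exact S.Sk_nonneg _ _ _

private lemma tendsto_AA_nu2 (M k : ℕ) : ∀ {f : X → ℂ}, B1 f →
    Tendsto (fun R : ℕ => S.AA M (S.Sk 1 (2 ^ R)) k f) atTop (𝓝 (S.AA M S.nu2 k f)) := by
  induction k with
  | zero => intro f hf; exact S.tendsto_nu2 hf
  | succ k ih =>
    intro f hf
    simp only [AA_succ]
    refine Tendsto.const_mul _ (tendsto_finsetSum _ fun a _ => tendsto_finsetSum _ fun b _ => ?_)
    exact ih (hf.dd S a b)

end Sys

private lemma forall2_start (k r R : ℕ) : List.Forall₂ (fun s r => r ≤ s)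
    (List.replicate (k + 1) (max r R)) (List.replicate k r ++ [R]) := by
  induction k with
  | zero => exact List.Forall₂.cons (le_max_right _ _) List.Forall₂.nil
  | succ k ih => exact List.Forall₂.cons (le_max_left _ _) ih

/-- REC-2 -/
theorem start (S : Sys X) (k : ℕ) (f : X → ℂ) (hf : B1 f) (c : ℝ)
    (h : ∀ r : ℕ, c ≤ S.Sk (k + 1) (2 ^ r) f) (r : ℕ) :
    c ≤ av (2 ^ r) k (fun l => av (2 ^ r) k (fun l' => S.nu2 (S.DD k l l' f))) := by
  refine ge_of_tendsto' (S.tendsto_AA_nu2 (2 ^ r) k hf) fun R => ?_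
  rw [S.AA_Sk_one]
  refine (h (max r R)).trans ?_
  rw [S.Sk_eq_Sg]
  have hmain := S.Sg_mono_pow (List.replicate (k + 1) (max r R)) (List.replicate k r ++ [R])
    (forall2_start k r R) f hf
  simpa using hmain

end Pool.Agent.Helper50.Rec
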