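import Mathlib
import Pool.Agent.Helper50.Rec.Basic

/-!
# Weak limits of sequences of functions bounded by one
-/

open MeasureTheory Finset Filter Topology
open scoped BigOperators ComplexConjugate InnerProductSpace ENNReal

set_option linter.unusedSectionVars false
set_option linter.unusedVariables false

namespace Pool.Agent.Helper50.Rec

variable {X : Type} [MeasurableSpace X]

namespace Sys

variable (S : Sys X)

lemma memLp {f : X → ℂ} (hf : B1 f) : MemLp f 2 S.μ :=
  MemLp.of_bound hf.1.aestronglyMeasurable 1 (Filter.Eventually.of_forall hf.2)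

/-- the element of `L²` -/
noncomputable def toL2 {f : X → ℂ} (hf : B1 f) : Lp ℂ 2 S.μ := (S.memLp hf).toLp f

lemma toL2_ae {f : X → ℂ} (hf : B1 f) : S.toL2 hf =ᵐ[S.μ] f := (S.memLp hf).coeFn_toLp

lemma inner_toL2 (c : Lp ℂ 2 S.μ) {g : X → ℂ} (hg : B1 g) :
    ⟪c, S.toL2 hg⟫_ℂ = ∫ x, conj (c x) * g x ∂S.μ := by
  rw [MeasureTheory.L2.inner_def]
  apply integral_congr_ae
  filter_upwards [S.toL2_ae hg] with x hx
  rw [RCLike.inner_apply, hx]; ring

lemma inner_toL2_toL2 {f g : X → ℂ} (hf : B1 f) (hg : B1 g) :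
    ⟪S.toL2 hf, S.toL2 hg⟫_ℂ = S.int (fun x => conj (f x) * g x) := by
  rw [inner_toL2]
  apply integral_congr_ae
  filter_upwards [S.toL2_ae hf] with x hx
  rw [hx]

lemma norm_toL2_le {f : X → ℂ} (hf : B1 f) : ‖S.toL2 hf‖ ≤ 1 := by
  have h1 : ‖S.toL2 hf‖ ^ 2 ≤ 1 := by
    have h2 : ((‖S.toL2 hf‖ ^ 2 : ℝ) : ℂ) = S.int (fun x => conj (f x) * f x) := by
      rw [← S.inner_toL2_toL2 hf hf, inner_self_eq_norm_sq_to_K]; push_cast; rfl
    have h3 := S.norm_int_le (hf.conj.mul hf)
    rw [← h2, Complex.norm_real] at h3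
    exact (le_abs_self _).trans h3
  nlinarith [norm_nonneg (S.toL2 hf)]

/-- weak limits along ultrafilters -/
theorem weak_limit (Φ : ℕ → X → ℂ) (hΦ : ∀ j, B1 (Φ j)) (U : Ultrafilter ℕ) :
    ∃ ft : X → ℂ, B1 ft ∧ ∀ ψ : X → ℂ, B1 ψ →
      Tendsto (fun j => S.int (fun x => Φ j x * ψ x)) U (𝓝 (S.int (fun x => ft x * ψ x))) := by
  classical
  -- weak compactness
  let v : ℕ → Lp ℂ 2 S.μ := fun j => S.toL2 (hΦ j).conj
  let w : ℕ → WeakDual ℂ (Lp ℂ 2 S.μ) := fun j =>
    StrongDual.toWeakDual (InnerProductSpace.toDual ℂ (Lp ℂ 2 S.μ) (v j))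
  have hcomp := WeakDual.isCompact_closedBall (𝕜 := ℂ) (E := Lp ℂ 2 S.μ) 0 1
  have hle : ((U.map w : Ultrafilter _) : Filter _) ≤
      𝓟 (WeakDual.toStrongDual ⁻¹' Metric.closedBall (0 : StrongDual ℂ (Lp ℂ 2 S.μ)) 1) := by
    rw [Ultrafilter.coe_map, le_principal_iff, Filter.mem_map]
    refine Filter.Eventually.of_forall fun j => ?_
    show w j ∈ WeakDual.toStrongDual ⁻¹' Metric.closedBall (0 : StrongDual ℂ (Lp ℂ 2 S.μ)) 1
    rw [Set.mem_preimage, mem_closedBall_zero_iff]
    show ‖InnerProductSpace.toDual ℂ (Lp ℂ 2 S.μ) (v j)‖ ≤ 1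
    rw [LinearIsometryEquiv.norm_map]
    exact S.norm_toL2_le _
  obtain ⟨y, -, hy⟩ := hcomp.ultrafilter_le_nhds _ hle
  set c : Lp ℂ 2 S.μ := (InnerProductSpace.toDual ℂ (Lp ℂ 2 S.μ)).symm
    (WeakDual.toStrongDual y) with hc
  have hev : ∀ ψ : Lp ℂ 2 S.μ, Tendsto (fun j => ⟪v j, ψ⟫_ℂ) U (𝓝 ⟪c, ψ⟫_ℂ) := by
    intro ψ
    have h1 : Tendsto w U (𝓝 y) := by
      rw [Tendsto]; rw [Ultrafilter.coe_map] at hy; exact hy
    have h2 := ((WeakDual.eval_continuous ψ).tendsto y).comp h1
    have e1 : y ψ = ⟪c, ψ⟫_ℂ := by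
      rw [hc, InnerProductSpace.toDual_symm_apply]; rfl
    rw [← e1]
    exact h2
  -- the limit is bounded by one
  have hbound : ∀ᵐ x ∂S.μ, ‖c x‖ ≤ 1 := by
    have hcm : Measurable (c : X → ℂ) := (Lp.stronglyMeasurable c).measurable
    set B : Set X := {x | 1 < ‖c x‖} with hB
    have hBm : MeasurableSet B := measurableSet_lt measurable_const hcm.norm
    set u : X → ℂ := B.indicator (fun x => c x / ‖c x‖) with hu
    have huB : B1 u := by
      refine ⟨Measurable.indicator (hcm.div (Complex.measurable_ofReal.comp hcm.norm)) hBm,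
        fun x => ?_⟩
      by_cases hx : x ∈ B
      · rw [hu, Set.indicator_of_mem hx, norm_div, Complex.norm_real, norm_norm]
        exact div_self_le_one _
      · rw [hu, Set.indicator_of_notMem hx]; simp
    have h1 := hev (S.toL2 huB)
    have hci : Integrable (fun x => ‖c x‖) S.μ :=
      ((Lp.memLp c).integrable (by norm_num)).norm
    have e1 : ⟪c, S.toL2 huB⟫_ℂ = ((∫ x in B, ‖c x‖ ∂S.μ : ℝ) : ℂ) := by
      rw [S.inner_toL2, ← integral_complex_ofReal, ← integral_indicator hBm]
      congr 1; funext x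
      by_cases hx : x ∈ B
      · rw [hu, Set.indicator_of_mem hx, Set.indicator_of_mem hx]
        have hx' : (1 : ℝ) < ‖c x‖ := hx
        have hne : ((‖c x‖ : ℝ) : ℂ) ≠ 0 := by
          have : ‖c x‖ ≠ 0 := by linarith
          exact_mod_cast this
        rw [mul_div_assoc', div_eq_iff hne, mul_comm ((starRingEnd ℂ) (c x)), Complex.mul_conj,
          Complex.normSq_eq_norm_sq]
        push_cast; ring
      · rw [hu, Set.indicator_of_notMem hx, Set.indicator_of_notMem hx, mul_zero]
    have e2 : ∀ j, ‖⟪v j, S.toL2 huB⟫_ℂ‖ ≤ ∫ x in B, (1 : ℝ) ∂S.μ := by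
      intro j
      rw [S.inner_toL2_toL2, ← integral_indicator hBm]
      refine (norm_integral_le_integral_norm _).trans ?_
      refine integral_mono (S.integrable ((hΦ j).conj.conj.mul huB)).norm
        ((integrable_const (1 : ℝ)).indicator hBm) fun x => ?_
      by_cases hx : x ∈ B
      · rw [Set.indicator_of_mem hx]
        exact ((hΦ j).conj.conj.mul huB).2 x
      · simp only [hu, Set.indicator_of_notMem hx, mul_zero, norm_zero]; exact le_rfl
    have h2 : ∫ x in B, ‖c x‖ ∂S.μ ≤ ∫ x in B, (1 : ℝ) ∂S.μ := by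
      have h3 := le_of_tendsto h1.norm (Filter.Eventually.of_forall e2)
      rw [e1, Complex.norm_real] at h3
      exact (le_abs_self _).trans h3
    have h4 : ∫ x in B, (‖c x‖ - 1) ∂S.μ = 0 := by
      apply le_antisymm
      · rw [integral_sub hci.integrableOn (integrable_const _)]; linarith
      · exact setIntegral_nonneg hBm fun x hx => by
          have : (1 : ℝ) < ‖c x‖ := hx
          linarith
    rw [integral_eq_zero_iff_of_nonneg_ae] at h4
    · rw [Filter.EventuallyEq, ae_restrict_iff' hBm] at h4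
      filter_upwards [h4] with x hx
      by_contra hne
      push Not at hne
      have := hx hne
      simp only [Pi.zero_apply] at this
      linarith
    · rw [Filter.EventuallyLE, ae_restrict_iff' hBm]
      refine Filter.Eventually.of_forall fun x hx => ?_
      have : (1 : ℝ) < ‖c x‖ := hx
      simp only [Pi.zero_apply]; linarith
    · exact (hci.sub (integrable_const _)).integrableOn
  have hcm : Measurable (c : X → ℂ) := (Lp.stronglyMeasurable c).measurable
  set G : Set X := {x | ‖c x‖ ≤ 1} with hG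
  have hGm : MeasurableSet G := measurableSet_le hcm.norm measurable_const
  refine ⟨fun x => conj (G.indicator c x), B1.conj ⟨hcm.indicator hGm, fun x => ?_⟩, ?_⟩
  · by_cases hx : x ∈ G
    · rw [Set.indicator_of_mem hx]; exact hx
    · rw [Set.indicator_of_notMem hx]; simp
  · intro ψ hψ
    have h1 := hev (S.toL2 hψ)
    have e1 : ⟪c, S.toL2 hψ⟫_ℂ = S.int (fun x => conj (G.indicator c x) * ψ x) := by
      rw [S.inner_toL2]
      apply integral_congr_ae
      filter_upwards [hbound] with x hx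
      rw [Set.indicator_of_mem (show x ∈ G from hx)]
    rw [e1] at h1
    refine h1.congr fun j => ?_
    rw [S.inner_toL2_toL2]
    simp only [Complex.conj_conj]

end Sys

end Pool.Agent.Helper50.Rec
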