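import Mathlib
import Pool.Agent.Helper50.Rec.Av
import Pool.Agent.Helper50.Rec.Erg
import Pool.Agent.Helper50.Rec.Weak
import Pool.Agent.Helper50.Rec.CubeCS
import Pool.Agent.Helper50.Rec.Start
import Pool.Agent.Helper4.Rec.Inverse
import Pool.Agent.Helper26.Rec.Weyl
import Pool.Agent.Helper5.Rec.RatProj

/-!
# Degree lowering
-/

open MeasureTheory Polynomial Finset Filter Topology
open scoped BigOperators ComplexConjugate

set_option linter.unusedSectionVars false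
set_option linter.unusedVariables false

namespace Pool.Agent.Helper50.Rec

variable {X : Type} [MeasurableSpace X]

/-- the functions whose average is dual to the polynomial averages -/
noncomputable def FF (S : Sys X) (P Q : ℤ[X]) (g w : X → ℂ) (n : ℕ) : X → ℂ :=
  S.sh (-(Q.eval (n : ℤ))) (fun x => w x * conj (S.sh (P.eval (n : ℤ)) g x))

lemma FF_B1 (S : Sys X) (P Q : ℤ[X]) {g w : X → ℂ} (hg : B1 g) (hw : B1 w) (n : ℕ) :
    B1 (FF S P Q g w n) := (hw.mul (hg.sh S _).conj).sh S _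

lemma int_FF (S : Sys X) (P Q : ℤ[X]) (g w ψ : X → ℂ) (n : ℕ) :
    S.int (fun x => FF S P Q g w n x * ψ x) =
      S.int (fun x => w x * conj (S.sh (P.eval (n : ℤ)) g x) * S.sh (Q.eval (n : ℤ)) ψ x) := by
  rw [← S.int_sh (Q.eval (n : ℤ))]
  congr 1
  funext x
  simp only [FF, Sys.sh, ← S.τ_add, neg_add_cancel, S.τ_zero]

lemma DD_FF (S : Sys X) (P Q : ℤ[X]) (g w : X → ℂ) (n : ℕ) (k : ℕ) (l l' : Fin k → ℕ) :
    S.DD k l l' (FF S P Q g w n) = FF S P Q (S.DD k l l' g) (S.DD k l l' w) n := by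
  unfold FF
  rw [S.DD_sh, S.DD_mul, S.DD_conj, S.DD_sh]

/-- the data of a weak limit of dual functions -/
structure Setup (S : Sys X) (D' : ℕ) (C : ℤ) (U : Ultrafilter ℕ) (H : ℕ → ℕ) (P Q : ℕ → ℤ[X])
    (g w : ℕ → X → ℂ) (ft : X → ℂ) : Prop where
  hU : (U : Filter ℕ) ≤ atTop
  hH : Tendsto H atTop atTop
  hD : 1 ≤ D'
  hC : C ≠ 0
  hP : ∀ j, (P j).natDegree < D'
  hQ : ∀ j, (Q j).natDegree = D'
  hQC : ∀ j, (Q j).leadingCoeff = C
  hg : ∀ j, B1 (g j)
  hw : ∀ j, B1 (w j)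
  hft : B1 ft
  lim : ∀ ψ : X → ℂ, B1 ψ →
    Tendsto (fun j => S.int (fun x => avg (H j) (FF S (P j) (Q j) (g j) (w j)) x * ψ x)) U
      (𝓝 (S.int (fun x => ft x * ψ x)))

section setup

variable {S : Sys X} {D' : ℕ} {C : ℤ} {U : Ultrafilter ℕ} {H : ℕ → ℕ} {P Q : ℕ → ℤ[X]}
  {g w : ℕ → X → ℂ} {ft : X → ℂ}

/-- eigenfunctions with eigenvalue far from rational do not see the dual functions -/
lemma Setup.weyl_box (hs : Setup S D' C U H P Q g w ft) (ε : ℝ) (hε : 0 < ε) :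
    ∃ ℓ : ℕ, ∀ (k : ℕ) (l l' : Fin k → ℕ) (ψ : X → ℂ) (θ : ℝ), S.Eig θ ψ →
      (∀ i : ℕ, 1 ≤ i → i ≤ ℓ → ∀ z : ℤ, (i : ℝ) * θ ≠ z) →
      ∀ᶠ j in atTop, ‖((H j : ℕ) : ℂ)⁻¹ * ∑ n ∈ range (H j),
        S.int (fun x => S.DD k l l' (FF S (P j) (Q j) (g j) (w j) n) x * ψ x)‖ ≤ ε := by
  obtain ⟨ℓ, hℓ⟩ := weyl S D' hs.hD C hs.hC (ε ^ 2) (by positivity)
  refine ⟨ℓ, fun k l l' ψ θ hψ hθ => ?_⟩
  obtain ⟨H₀, hH₀⟩ := hℓ (-θ) (fun i h1 h2 z hz => hθ i h1 h2 (-z) (by
    push_cast; linarith))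
  filter_upwards [hs.hH.eventually_ge_atTop H₀] with j hj
  have h1 := hH₀ (H j) hj (P j) (Q j) (hs.hP j) (hs.hQ j) (hs.hQC j) (S.DD k l l' (g j))
    ((hs.hg j).DD S k l l')
  set v : ℕ → X → ℂ := fun h x => ec (-θ * ((Q j).eval (h : ℤ) : ℤ)) *
            S.sh ((P j).eval (h : ℤ)) (S.DD k l l' (g j)) x with hv
  have hvB : ∀ h, B1 (v h) := fun h =>
    (((hs.hg j).DD S k l l').sh S _).cmul (norm_ec _).le
  have e1 : ∀ n, S.int (fun x => S.DD k l l' (FF S (P j) (Q j) (g j) (w j) n) x * ψ x) =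
      S.int (fun x => conj (v n x) * (S.DD k l l' (w j) x * ψ x)) := by
    intro n
    rw [DD_FF, int_FF]
    apply S.int_congr_ae
    filter_upwards [hψ.iter ((Q j).eval (n : ℤ))] with x hx
    simp only [hv, map_mul]
    rw [show S.sh ((Q j).eval (n : ℤ)) ψ x = ψ (S.τ ((Q j).eval (n : ℤ)) x) from rfl, hx,
      neg_mul, ec_neg, Complex.conj_conj, mul_comm θ]
    ring
  have e2 : ((H j : ℕ) : ℂ)⁻¹ * ∑ n ∈ range (H j),
        S.int (fun x => S.DD k l l' (FF S (P j) (Q j) (g j) (w j) n) x * ψ x) =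
      S.int (fun x => avg (H j) (fun n x => conj (v n x)) x * (S.DD k l l' (w j) x * ψ x)) := by
    rw [S.int_avg_mul (fun n => (hvB n).conj) (H j) (((hs.hw j).DD S k l l').mul hψ.1)]
    congr 1
    exact Finset.sum_congr rfl fun n _ => e1 n
  rw [e2]
  have e3 : avg (H j) (fun n x => conj (v n x)) = fun x => conj (avg (H j) v x) := by
    funext x
    simp only [avg, map_mul, map_inv₀, Complex.conj_natCast, map_sum]
  have h2 := S.cs_one (B1.avg (fun n => (hvB n).conj) (H j))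
    (((hs.hw j).DD S k l l').mul hψ.1)
  rw [e3, S.sq_conj] at h2
  rw [e3]
  have h3 := h2.trans h1
  exact (abs_le_of_sq_le_sq' (by simpa using h3) hε.le).2

end setup

/-- eigenfunctions and zero -/
def EZ (S : Sys X) (u : X → ℂ) : Prop := (∃ t : ℝ, S.Eig t u) ∨ u = fun _ => 0

lemma EZ.B1 {S : Sys X} {u : X → ℂ} (h : EZ S u) : B1 u := by
  rcases h with ⟨t, ht⟩ | rfl
  · exact ht.1
  · exact Rec.B1.const (by simp)

lemma EZ.mul_conj {S : Sys X} {u v : X → ℂ} (hu : EZ S u) (hv : EZ S v) :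
    EZ S (fun x => u x * conj (v x)) := by
  rcases hu with ⟨s, hs⟩ | rfl
  · rcases hv with ⟨t, ht⟩ | rfl
    · exact Or.inl ⟨_, hs.mul_conj ht⟩
    · right; funext x; simp
  · right; funext x; simp

lemma EZ_box (S : Sys X) : ∀ (k : ℕ) {χ : (Fin k → ℕ) → X → ℂ}, (∀ l, EZ S (χ l)) →
    ∀ l l', EZ S (box k χ l l')
  | 0, _, h, _, _ => h _
  | k + 1, χ, h, l, l' => EZ_box S k (fun m => (h _).mul_conj (h _)) _ _

/-- eigenfunctions with eigenvalue a root of unity of order dividing `R` -/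
def Gd (S : Sys X) (R : ℕ) (ψ : X → ℂ) : Prop := ∃ θ : ℝ, S.Eig θ ψ ∧ ∃ z : ℤ, (R : ℝ) * θ = z

lemma Gd.dvd {S : Sys X} {R R' : ℕ} {ψ : X → ℂ} (h : Gd S R ψ) (hd : R ∣ R') : Gd S R' ψ := by
  obtain ⟨θ, hθ, z, hz⟩ := h
  obtain ⟨m, rfl⟩ := hd
  exact ⟨θ, hθ, m * z, by push_cast; rw [← hz]; ring⟩

lemma Gd.cls {S : Sys X} {R : ℕ} (hR : 1 ≤ R) {ψ : X → ℂ} (h : Gd S R ψ) :
    ∃ p ∈ range R, S.Eig ((p : ℝ) / R) ψ := by
  obtain ⟨θ, hθ, z, hz⟩ := h
  have hR' : (0 : ℝ) < R := by exact_mod_cast hR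
  refine ⟨(z % (R : ℤ)).toNat, ?_, hθ.of_ec ?_⟩
  · rw [mem_range]
    have h1 := Int.emod_lt_of_pos z (by exact_mod_cast hR : (0 : ℤ) < R)
    omega
  · have h1 : 0 ≤ z % (R : ℤ) := Int.emod_nonneg z (by positivity)
    have h2 : (((z % (R : ℤ)).toNat : ℕ) : ℝ) = ((z % (R : ℤ) : ℤ) : ℝ) := by
      have : (((z % (R : ℤ)).toNat : ℕ) : ℤ) = z % (R : ℤ) := Int.toNat_of_nonneg h1
      exact_mod_cast this
    have h3 : θ = ((z % (R : ℤ) : ℤ) : ℝ) / R + ((z / (R : ℤ) : ℤ) : ℝ) := by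
      have h4 : (z : ℝ) = (R : ℝ) * ((z / (R : ℤ) : ℤ) : ℝ) + ((z % (R : ℤ) : ℤ) : ℝ) := by
        have := Int.mul_ediv_add_emod z R
        exact_mod_cast this.symm
      field_simp
      rw [mul_comm, hz, h4]; ring
    rw [h2]
    conv_lhs => rw [h3]
    rw [ec_add, ec_int, mul_one]

/-- indicator as a real number -/
noncomputable def ind (p : Prop) : ℝ := by classical exact if p then 1 else 0

lemma ind_true {p : Prop} (h : p) : ind p = 1 := by simp [ind, h]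
lemma ind_false {p : Prop} (h : ¬p) : ind p = 0 := by simp [ind, h]
lemma ind_nonneg (p : Prop) : 0 ≤ ind p := by by_cases h : p <;> simp [ind, h]
lemma ind_mono {p q : Prop} (h : p → q) : ind p ≤ ind q := by
  by_cases hp : p
  · rw [ind_true hp, ind_true (h hp)]
  · rw [ind_false hp]; exact ind_nonneg q

/-- the end of the degree lowering argument -/
lemma lower_finish (S : Sys X) (k : ℕ) (hk : 1 ≤ k) (M : ℕ) (hM : 1 ≤ M) (h : X → ℂ) (hh : B1 h)
    (A : (Fin k → ℕ) → X → ℂ) (hA : Low k A) (χ : (Fin k → ℕ) → X → ℂ) (hχ : ∀ l, EZ S (χ l))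
    (c₀ : ℝ) (hc₀ : 0 < c₀)
    (hlow : ∀ l, χ l ≠ (fun _ => 0) →
      c₀ ≤ ‖S.int (fun x => A l x * (S.sh (∑ i, (l i : ℤ)) h x * χ l x))‖)
    (R : ℕ) (hR : 1 ≤ R) (c₂ : ℝ) (hc₂ : 0 < c₂)
    (hgood : c₂ ≤ av M k (fun l => av M k (fun l' => ind (Gd S R (box k χ l l'))))) :
    ((c₀ * (c₂ / R)) ^ (2 ^ k)) ^ 2 ≤ S.Sk k M h := by
  have hR' : (0 : ℝ) < R := by exact_mod_cast hR
  -- fix the second vector
  rw [av_comm] at hgood
  obtain ⟨l', -, hl'⟩ := exists_av_le hM k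
    (fun l' => av M k (fun l => ind (Gd S R (box k χ l l'))))
  have h1 := hgood.trans hl'
  obtain ⟨B, hB, hBl⟩ := box_top k χ (fun l => (hχ l).B1) l'
  -- pigeonhole over the eigenvalue classes
  have h2 : c₂ ≤ ∑ p ∈ range R, av M k (fun l => ind (S.Eig ((p : ℝ) / R) (box k χ l l'))) := by
    refine h1.trans ?_
    rw [← av_sum]
    refine av_mono M k fun l => ?_
    by_cases hg : Gd S R (box k χ l l')
    · obtain ⟨p, hp, hpe⟩ := hg.cls hR
      rw [ind_true hg]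
      calc (1 : ℝ) = ind (S.Eig ((p : ℝ) / R) (box k χ l l')) := (ind_true hpe).symm
        _ ≤ _ := Finset.single_le_sum (f := fun p : ℕ => ind (S.Eig ((p : ℝ) / R) (box k χ l l')))
            (fun p _ => ind_nonneg _) hp
    · rw [ind_false hg]
      exact Finset.sum_nonneg fun p _ => ind_nonneg _
  obtain ⟨p, hp, hpc⟩ : ∃ p ∈ range R, c₂ / R ≤
      av M k (fun l => ind (S.Eig ((p : ℝ) / R) (box k χ l l'))) := by
    apply Finset.exists_le_of_sum_le (⟨0, by simp; omega⟩ : (range R).Nonempty)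
    rw [Finset.sum_const, card_range, nsmul_eq_mul, mul_div_cancel₀ _ hR'.ne']
    exact h2
  obtain ⟨l₀, -, hl₀⟩ := exists_av_le hM k
    (fun l => ind (S.Eig ((p : ℝ) / R) (box k χ l l')))
  have hl₀' : S.Eig ((p : ℝ) / R) (box k χ l₀ l') := by
    by_contra hne
    rw [ind_false hne] at hl₀
    have : 0 < c₂ / R := by positivity
    linarith
  set ω := box k χ l₀ l' with hω
  -- lower bound for the modified averages
  have h3 : ∀ l, c₀ * ind (S.Eig ((p : ℝ) / R) (box k χ l l')) ≤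
      ‖((1 : ℕ) : ℂ)⁻¹ * ∑ n ∈ range 1, S.int (fun x => (A l x * conj (B l x)) *
        (S.sh (∑ i, (l i : ℤ)) h x * ω x))‖ := by
    intro l
    by_cases hg : S.Eig ((p : ℝ) / R) (box k χ l l')
    · rw [ind_true hg, mul_one]
      obtain ⟨κ, hκ, hκe⟩ := hg.prop hl₀'
      -- moduli
      have hmod : ∀ᵐ x ∂S.μ, ‖χ l x‖ = 1 ∧ ‖B l x‖ = 1 := by
        filter_upwards [hg.2.1] with x hx
        rw [hBl l] at hx
        have a1 := ((hχ l).B1).2 x
        have a2 := (hB.B1 l).2 x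
        rw [norm_mul] at hx
        have n1 := norm_nonneg (χ l x)
        have n2 := norm_nonneg (B l x)
        constructor <;> nlinarith
      have hne : χ l ≠ fun _ => 0 := by
        intro h0
        obtain ⟨x, hx⟩ := hmod.exists
        rw [h0] at hx; simp at hx
      refine (hlow l hne).trans_eq ?_
      have e1 : S.int (fun x => A l x * (S.sh (∑ i, (l i : ℤ)) h x * χ l x)) =
          κ * S.int (fun x => (A l x * conj (B l x)) * (S.sh (∑ i, (l i : ℤ)) h x * ω x)) := by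
        rw [← S.int_cmul]
        apply S.int_congr_ae
        filter_upwards [hmod, hκe] with x hx hy
        have hBB := mul_conj_of_norm_one hx.2
        have h5 : χ l x * B l x = κ * ω x := by
          rw [← hy, hBl l]
        calc A l x * (S.sh (∑ i, (l i : ℤ)) h x * χ l x)
            = A l x * (S.sh (∑ i, (l i : ℤ)) h x * (χ l x * (B l x * conj (B l x)))) := by
              rw [hBB, mul_one]
          _ = A l x * conj (B l x) * (S.sh (∑ i, (l i : ℤ)) h x * (χ l x * B l x)) := by ring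
          _ = _ := by rw [h5]; ring
      rw [e1, norm_mul, hκ, one_mul]
      simp
    · rw [ind_false hg, mul_zero]; positivity
  have h4 : c₀ * (c₂ / R) ≤ av M k (fun l => ‖((1 : ℕ) : ℂ)⁻¹ * ∑ n ∈ range 1,
      S.int (fun x => (A l x * conj (B l x)) * (S.sh (∑ i, (l i : ℤ)) h x * ω x))‖) := by
    calc c₀ * (c₂ / R) ≤ c₀ * av M k (fun l => ind (S.Eig ((p : ℝ) / R) (box k χ l l'))) := by
          gcongr
      _ = av M k (fun l => c₀ * ind (S.Eig ((p : ℝ) / R) (box k χ l l'))) := by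
          rw [av_mul_left]
      _ ≤ _ := av_mono M k h3
  have h5 := cubeCS S k 1 M hM le_rfl (fun l x => A l x * conj (B l x)) (hA.mul hB.conj)
    (fun _ => h) (fun _ => hh) (fun _ => ω) (fun _ => hl₀'.1)
  have h6 : (c₀ * (c₂ / R)) ^ (2 ^ k) ≤
      av M k (fun l => av M k (fun l' => ‖S.int (S.DD k l l' h)‖)) := by
    calc (c₀ * (c₂ / R)) ^ (2 ^ k) ≤ _ := by
          exact pow_le_pow_left₀ (by positivity) h4 _
      _ ≤ _ := h5
      _ = _ := by
          refine av_congr M k fun l => av_congr M k fun l'' => ?_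
          have e1 : S.int (fun x => S.DD k l l'' h x * box k (fun _ => ω) l l'' x) =
              S.int (S.DD k l l'' h) := by
            apply S.int_congr_ae
            filter_upwards [hl₀'.2.1] with x hx
            rw [box_fixed k hk ω x hx, mul_one]
          simp only [e1, Finset.sum_const, card_range, one_smul, Nat.cast_one, inv_one, one_mul]
  rw [S.Sk_eq_av]
  calc ((c₀ * (c₂ / R)) ^ (2 ^ k)) ^ 2
      ≤ (av M k (fun l => av M k (fun l' => ‖S.int (S.DD k l l' h)‖))) ^ 2 := by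
        exact pow_le_pow_left₀ (by positivity) h6 _
    _ ≤ av M k (fun l => (av M k (fun l' => ‖S.int (S.DD k l l' h)‖)) ^ 2) := sq_av_le hM k _
    _ ≤ _ := av_mono M k fun l => sq_av_le hM k _

section setup2

variable {S : Sys X} {D' : ℕ} {C : ℤ} {U : Ultrafilter ℕ} {H : ℕ → ℕ} {P Q : ℕ → ℤ[X]}
  {g w : ℕ → X → ℂ} {ft : X → ℂ}

/-- correlation of the weak limit gives many cubes with rational eigenvalue -/
lemma Setup.good_ft (hs : Setup S D' C U H P Q g w ft) (c₁ : ℝ) (hc₁ : 0 < c₁) (k : ℕ) :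
    ∃ R : ℕ, 1 ≤ R ∧ ∀ (M : ℕ), 1 ≤ M → ∀ (A : (Fin k → ℕ) → X → ℂ), Low k A →
      ∀ (χ : (Fin k → ℕ) → X → ℂ), (∀ l, EZ S (χ l)) →
      c₁ ≤ av M k (fun l => ‖S.int (fun x => A l x * (S.sh (∑ i, (l i : ℤ)) ft x * χ l x))‖) →
      (c₁ / 2) ^ (2 ^ k) / 2 ≤
        av M k (fun l => av M k (fun l' => ind (Gd S R (box k χ l l')))) := by
  set ε : ℝ := (c₁ / 2) ^ (2 ^ k) / 2 with hε
  have hε0 : 0 < ε := by positivity
  obtain ⟨ℓ, hℓ⟩ := hs.weyl_box ε hε0
  refine ⟨ℓ.factorial, Nat.factorial_pos ℓ, fun M hM A hA χ hχ hc => ?_⟩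
  have hχB : ∀ l, B1 (χ l) := fun l => (hχ l).B1
  have hFB : ∀ j n, B1 (FF S (P j) (Q j) (g j) (w j) n) := fun j n =>
    FF_B1 S _ _ (hs.hg j) (hs.hw j) n
  -- the limit of the averages
  have hlim : ∀ l : Fin k → ℕ, Tendsto (fun j => ((H j : ℕ) : ℂ)⁻¹ * ∑ n ∈ range (H j),
      S.int (fun x => A l x * (S.sh (∑ i, (l i : ℤ)) (FF S (P j) (Q j) (g j) (w j) n) x *
        χ l x))) U (𝓝 (S.int (fun x => A l x * (S.sh (∑ i, (l i : ℤ)) ft x * χ l x)))) := by
    intro l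
    set m : ℤ := ∑ i, (l i : ℤ) with hm
    have h1 := hs.lim (S.sh (-m) (fun x => A l x * χ l x)) (((hA.B1 l).mul (hχB l)).sh S _)
    have e1 : ∀ u : X → ℂ, S.int (fun x => u x * S.sh (-m) (fun x => A l x * χ l x) x) =
        S.int (fun x => A l x * (S.sh m u x * χ l x)) := by
      intro u
      rw [← S.int_sh m]
      congr 1; funext x
      simp only [Sys.sh, ← S.τ_add, neg_add_cancel, S.τ_zero]; ring
    rw [e1] at h1
    refine h1.congr fun j => ?_
    rw [S.int_avg_mul (hFB j) (H j) (((hA.B1 l).mul (hχB l)).sh S _)]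
    congr 1
    exact Finset.sum_congr rfl fun n _ => e1 _
  have hlim2 := tendsto_av (F := (U : Filter ℕ)) M k (fun l => (hlim l).norm)
  have hev1 : ∀ᶠ j in (U : Filter ℕ), c₁ / 2 < av M k (fun l => ‖((H j : ℕ) : ℂ)⁻¹ *
      ∑ n ∈ range (H j), S.int (fun x => A l x * (S.sh (∑ i, (l i : ℤ))
        (FF S (P j) (Q j) (g j) (w j) n) x * χ l x))‖) := by
    apply hlim2.eventually_const_lt
    linarith
  have hev2 : ∀ᶠ j in (U : Filter ℕ), 1 ≤ H j := hs.hU (hs.hH.eventually_ge_atTop 1)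
  have hev3 : ∀ᶠ j in (U : Filter ℕ), av M k (fun l => av M k (fun l' =>
      ‖((H j : ℕ) : ℂ)⁻¹ * ∑ n ∈ range (H j),
        S.int (fun x => S.DD k l l' (FF S (P j) (Q j) (g j) (w j) n) x * box k χ l l' x)‖)) ≤
      av M k (fun l => av M k (fun l' => ind (Gd S ℓ.factorial (box k χ l l')) + ε)) := by
    apply eventually_av_le M k
    intro l
    apply eventually_av_le M k
    intro l'
    by_cases hg : Gd S ℓ.factorial (box k χ l l')
    · rw [ind_true hg]
      refine Filter.Eventually.of_forall fun j => ?_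
      have := norm_avg_le (z := fun n => S.int (fun x =>
        S.DD k l l' (FF S (P j) (Q j) (g j) (w j) n) x * box k χ l l' x)) (H j)
        (fun n => S.norm_int_le (((hFB j n).DD S k l l').mul (box_B1 k hχB l l')))
      linarith
    · rw [ind_false hg, zero_add]
      rcases EZ_box S k hχ l l' with ⟨θ, hθ⟩ | h0
      · refine hs.hU (hℓ k l l' (box k χ l l') θ hθ fun i h1 h2 z hz => hg ⟨θ, hθ, ?_⟩)
        obtain ⟨m, hm⟩ := Nat.dvd_factorial h1 h2
        refine ⟨m * z, ?_⟩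
        rw [hm]; push_cast; rw [← hz]; ring
      · refine Filter.Eventually.of_forall fun j => ?_
        rw [h0]
        simp only [mul_zero, Sys.int, integral_zero, Finset.sum_const_zero, norm_zero]
        exact hε0.le
  obtain ⟨j, ⟨hj1, hj2⟩, hj3⟩ := ((hev1.and hev2).and hev3).exists
  have h4 := cubeCS S k (H j) M hM hj2 A hA (FF S (P j) (Q j) (g j) (w j)) (hFB j) χ hχB
  have h5 : (c₁ / 2) ^ (2 ^ k) ≤
      av M k (fun l => av M k (fun l' => ind (Gd S ℓ.factorial (box k χ l l')) + ε)) :=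
    (pow_le_pow_left₀ (by positivity) hj1.le _).trans (h4.trans hj3)
  have h6 : av M k (fun l => av M k (fun l' => ind (Gd S ℓ.factorial (box k χ l l')) + ε)) =
      av M k (fun l => av M k (fun l' => ind (Gd S ℓ.factorial (box k χ l l')))) + ε := by
    have : ∀ l, av M k (fun l' => ind (Gd S ℓ.factorial (box k χ l l')) + ε) =
        av M k (fun l' => ind (Gd S ℓ.factorial (box k χ l l'))) + ε := by
      intro l; rw [av_add, av_const hM]
    rw [av_congr M k this, av_add, av_const hM]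
  rw [h6] at h5
  have h7 : (c₁ / 2) ^ (2 ^ k) = 2 * ε := by rw [hε]; ring
  linarith

end setup2

lemma Inv.shift {S : Sys X} {R : ℕ} {G : X → ℂ} (h : S.Inv R G) (n : ℤ) : S.Inv R (S.sh n G) := by
  refine ⟨h.1.sh S n, ?_⟩
  filter_upwards [S.ae_sh n h.2] with x hx
  simp only [Sys.sh]
  rw [← hx, ← S.τ_add, ← S.τ_add, add_comm]

lemma Inv.dd {S : Sys X} {R : ℕ} {G : X → ℂ} (h : S.Inv R G) (a b : ℤ) :
    S.Inv R (S.dd a b G) := by
  refine ⟨h.1.dd S a b, ?_⟩
  filter_upwards [(Inv.shift h a).2, (Inv.shift h b).2] with x hx hy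
  simp only [Sys.dd, Sys.sh] at *
  rw [hx, hy]

lemma Inv.DD {S : Sys X} {R : ℕ} : ∀ (k : ℕ) {G : X → ℂ} (h : S.Inv R G) (l l' : Fin k → ℕ),
    S.Inv R (S.DD k l l' G)
  | 0, _, h, _, _ => h
  | k + 1, G, h, l, l' => Inv.DD k (Inv.dd h _ _) _ _

/-- correlation of a periodic function gives many cubes with rational eigenvalue -/
lemma good_G (S : Sys X) (R : ℕ) (G : X → ℂ) (hG : S.Inv R G) (c₁ : ℝ) (hc₁ : 0 < c₁)
    (k M : ℕ) (hM : 1 ≤ M) (A : (Fin k → ℕ) → X → ℂ) (hA : Low k A)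
    (χ : (Fin k → ℕ) → X → ℂ) (hχ : ∀ l, EZ S (χ l))
    (hc : c₁ ≤ av M k (fun l => ‖S.int (fun x => A l x * (S.sh (∑ i, (l i : ℤ)) G x * χ l x))‖)) :
    c₁ ^ (2 ^ k) ≤ av M k (fun l => av M k (fun l' => ind (Gd S R (box k χ l l')))) := by
  have hχB : ∀ l, B1 (χ l) := fun l => (hχ l).B1
  have h5 := cubeCS S k 1 M hM le_rfl A hA (fun _ => G) (fun _ => hG.1) χ hχB
  calc c₁ ^ (2 ^ k) ≤ (av M k (fun l => ‖((1 : ℕ) : ℂ)⁻¹ * ∑ n ∈ range 1,
      S.int (fun x => A l x * (S.sh (∑ i, (l i : ℤ)) G x * χ l x))‖)) ^ (2 ^ k) := by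
        apply pow_le_pow_left₀ hc₁.le
        simpa using hc
    _ ≤ _ := h5
    _ ≤ _ := by
        refine av_mono M k fun l => av_mono M k fun l' => ?_
        simp only [Finset.sum_const, card_range, one_smul, Nat.cast_one, inv_one, one_mul]
        by_cases hg : Gd S R (box k χ l l')
        · rw [ind_true hg]
          exact S.norm_int_le ((hG.1.DD S k l l').mul (box_B1 k hχB l l'))
        · rw [ind_false hg]
          rcases EZ_box S k hχ l l' with ⟨θ, hθ⟩ | h0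
          · rw [S.int_mul_eig_eq_zero (Inv.DD k hG l l') hθ fun z hz => hg ⟨θ, hθ, z, hz⟩]
            simp
          · rw [h0]; simp [Sys.int]

end Pool.Agent.Helper50.Rec
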