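import Mathlib
import Pool.Agent.Helper50.Rec.Lower
import Pool.Agent.Helper26.Rec.Control

/-!
# The core theorem: rational characteristic factor for two polynomials of different degrees,
uniformly over polynomials with a fixed leading coefficient
-/

open MeasureTheory Polynomial Finset Filter Topology
open scoped BigOperators ComplexConjugate

set_option linter.unusedSectionVars false
set_option linter.unusedVariables false

namespace Pool.Agent.Helper50.Rec

variable {X : Type} [MeasurableSpace X]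

section lower

variable {S : Sys X} {D' : ℕ} {C : ℤ} {U : Ultrafilter ℕ} {H : ℕ → ℕ} {P Q : ℕ → ℤ[X]}
  {g w : ℕ → X → ℂ} {ft : X → ℂ}

lemma Setup.lower (hs : Setup S D' C U H P Q g w ft) (ρ : X → ℂ) (hρ : B1 ρ)
    (happ : ∀ ε : ℝ, 0 < ε → ∃ R : ℕ, 1 ≤ R ∧ ∃ G : X → ℂ, S.Inv R G ∧
      S.sq (fun x => ρ x - G x) ≤ ε)
    (k : ℕ) (hk : 1 ≤ k) (c : ℝ) (hc : 0 < c)
    (hlow : ∀ r : ℕ, c ≤ S.Sk (k + 1) (2 ^ r) (fun x => (ft x - ρ x) / 2)) :
    ∃ c' : ℝ, 0 < c' ∧ ∀ r : ℕ, c' ≤ S.Sk k (2 ^ r) (fun x => (ft x - ρ x) / 2) := by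
  set h : X → ℂ := fun x => (ft x - ρ x) / 2 with hh'
  have hh : B1 h := Sys.half_B1 hs.hft hρ
  set c₀ : ℝ := Real.sqrt (c / 16) with hc₀'
  have hc₀ : 0 < c₀ := Real.sqrt_pos.2 (by positivity)
  set c₁ : ℝ := c₀ * (c / 2) with hc₁'
  have hc₁ : 0 < c₁ := by positivity
  obtain ⟨R₁, hR₁, G, hG, hGle⟩ := happ ((c₁ / 2) ^ 2) (by positivity)
  obtain ⟨R₂, hR₂, hR₂'⟩ := hs.good_ft c₁ hc₁ k
  set c₂ : ℝ := (c₁ / 2) ^ (2 ^ k) / 2 with hc₂'
  have hc₂ : 0 < c₂ := by positivity
  have hR : 1 ≤ R₁ * R₂ := Nat.mul_pos hR₁ hR₂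
  refine ⟨((c₀ * (c₂ / ((R₁ * R₂ : ℕ) : ℝ))) ^ (2 ^ k)) ^ 2, ?_, fun r => ?_⟩
  · have : (0 : ℝ) < ((R₁ * R₂ : ℕ) : ℝ) := by exact_mod_cast hR
    positivity
  set M : ℕ := 2 ^ r with hM'
  have hM : 1 ≤ M := Nat.one_le_two_pow
  have hst := start S k h hh c hlow r
  rw [av_comm] at hst
  obtain ⟨l', -, hl'⟩ := exists_av_le hM k (fun l' => av M k (fun l => S.nu2 (S.DD k l l' h)))
  have hst2 : c ≤ av M k (fun l => S.nu2 (S.DD k l l' h)) := hst.trans hl'
  obtain ⟨A, hA, hAl⟩ := DD_top S hh k l'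
  -- eigenfunctions
  have hch : ∀ l : Fin k → ℕ, ∃ χ : X → ℂ, EZ S χ ∧
      (c / 2 ≤ S.nu2 (S.DD k l l' h) →
        c₀ ≤ ‖S.int (fun x => A l x * (S.sh (∑ i, (l i : ℤ)) h x * χ x))‖) ∧
      (χ ≠ (fun _ => 0) →
        c₀ ≤ ‖S.int (fun x => A l x * (S.sh (∑ i, (l i : ℤ)) h x * χ x))‖) := by
    intro l
    by_cases hb : c / 2 ≤ S.nu2 (S.DD k l l' h)
    · obtain ⟨t, χ, hχ, hle⟩ := inverse S (S.DD k l l' h) (hh.DD S k l l') (c / 2)
        (by positivity) hb
      have key : c₀ ≤ ‖S.int (fun x => A l x *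
          (S.sh (∑ i, (l i : ℤ)) h x * (fun x => conj (χ x)) x))‖ := by
        have e1 : (fun x => A l x * (S.sh (∑ i, (l i : ℤ)) h x * (fun x => conj (χ x)) x)) =
            fun x => S.DD k l l' h x * conj (χ x) := by
          funext x; rw [hAl]; ring
        rw [e1]
        refine Real.sqrt_le_iff.2 ⟨norm_nonneg _, ?_⟩
        refine le_trans (le_of_eq ?_) hle
        ring
      exact ⟨fun x => conj (χ x), Or.inl ⟨_, hχ.conj⟩, fun _ => key, fun _ => key⟩
    · exact ⟨fun _ => 0, Or.inr rfl, fun h => absurd h hb, fun h => absurd rfl h⟩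
  choose χ hχ hχ1 hχ2 using hch
  have hχB : ∀ l, B1 (χ l) := fun l => (hχ l).B1
  have hnu : c / 2 ≤ av M k (fun l => ind (c / 2 ≤ S.nu2 (S.DD k l l' h))) := by
    have h1 : av M k (fun l => S.nu2 (S.DD k l l' h)) ≤
        av M k (fun l => ind (c / 2 ≤ S.nu2 (S.DD k l l' h)) + c / 2) := by
      refine av_mono M k fun l => ?_
      by_cases hb : c / 2 ≤ S.nu2 (S.DD k l l' h)
      · rw [ind_true hb]
        have := S.nu2_le_one (hh.DD S k l l')
        linarith
      · rw [ind_false hb]; push Not at hb; linarith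
    rw [av_add, av_const hM] at h1
    linarith
  have hav : c₁ ≤ av M k (fun l =>
      ‖S.int (fun x => A l x * (S.sh (∑ i, (l i : ℤ)) h x * χ l x))‖) := by
    calc c₁ = c₀ * (c / 2) := rfl
      _ ≤ c₀ * av M k (fun l => ind (c / 2 ≤ S.nu2 (S.DD k l l' h))) := by gcongr
      _ = av M k (fun l => c₀ * ind (c / 2 ≤ S.nu2 (S.DD k l l' h))) := by rw [av_mul_left]
      _ ≤ _ := by
        refine av_mono M k fun l => ?_
        by_cases hb : c / 2 ≤ S.nu2 (S.DD k l l' h)
        · rw [ind_true hb, mul_one]; exact hχ1 l hb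
        · rw [ind_false hb, mul_zero]; positivity
  have hsplit : ∀ l, ‖S.int (fun x => A l x * (S.sh (∑ i, (l i : ℤ)) h x * χ l x))‖ ≤
      (1 / 2) * ‖S.int (fun x => A l x * (S.sh (∑ i, (l i : ℤ)) ft x * χ l x))‖ +
      (1 / 2) * ‖S.int (fun x => A l x * (S.sh (∑ i, (l i : ℤ)) ρ x * χ l x))‖ := by
    intro l
    have e1 : S.int (fun x => A l x * (S.sh (∑ i, (l i : ℤ)) h x * χ l x)) =
        (1 / 2) * (S.int (fun x => A l x * (S.sh (∑ i, (l i : ℤ)) ft x * χ l x)) -
          S.int (fun x => A l x * (S.sh (∑ i, (l i : ℤ)) ρ x * χ l x))) := by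
      have i1 : Integrable (fun x => A l x * (S.sh (∑ i, (l i : ℤ)) ft x * χ l x)) S.μ :=
        S.integrable ((hA.B1 l).mul ((hs.hft.sh S _).mul (hχB l)))
      have i2 : Integrable (fun x => A l x * (S.sh (∑ i, (l i : ℤ)) ρ x * χ l x)) S.μ :=
        S.integrable ((hA.B1 l).mul ((hρ.sh S _).mul (hχB l)))
      unfold Sys.int
      rw [← integral_sub i1 i2, ← integral_const_mul]
      congr 1; funext x
      simp only [hh', Sys.sh]; ring
    rw [e1, norm_mul]
    have h2 := norm_sub_le (S.int (fun x => A l x * (S.sh (∑ i, (l i : ℤ)) ft x * χ l x)))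
      (S.int (fun x => A l x * (S.sh (∑ i, (l i : ℤ)) ρ x * χ l x)))
    have h3 : ‖(1 / 2 : ℂ)‖ = 1 / 2 := by simp
    rw [h3]
    linarith
  have hsum : c₁ ≤ (1 / 2) * av M k (fun l =>
        ‖S.int (fun x => A l x * (S.sh (∑ i, (l i : ℤ)) ft x * χ l x))‖) +
      (1 / 2) * av M k (fun l =>
        ‖S.int (fun x => A l x * (S.sh (∑ i, (l i : ℤ)) ρ x * χ l x))‖) := by
    rw [← av_mul_left, ← av_mul_left, ← av_add]
    exact hav.trans (av_mono M k hsplit)
  have hgood : c₂ ≤ av M k (fun l => av M k (fun l' => ind (Gd S (R₁ * R₂) (box k χ l l')))) := by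
    by_cases h1 : c₁ ≤ av M k (fun l =>
        ‖S.int (fun x => A l x * (S.sh (∑ i, (l i : ℤ)) ft x * χ l x))‖)
    · refine (hR₂' M hM A hA χ hχ h1).trans ?_
      exact av_mono M k fun l => av_mono M k fun l' => ind_mono fun hg =>
        hg.dvd (Dvd.intro_left _ rfl)
    · push Not at h1
      have h2 : c₁ ≤ av M k (fun l =>
        ‖S.int (fun x => A l x * (S.sh (∑ i, (l i : ℤ)) ρ x * χ l x))‖) := by linarith
      have h3 : ∀ l, ‖S.int (fun x => A l x * (S.sh (∑ i, (l i : ℤ)) ρ x * χ l x))‖ ≤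
          ‖S.int (fun x => A l x * (S.sh (∑ i, (l i : ℤ)) G x * χ l x))‖ + c₁ / 2 := by
        intro l
        set m : ℤ := ∑ i, (l i : ℤ) with hm
        have h4 := S.norm_int_sub_le ((hA.B1 l).mul (hχB l)) (hρ.sh S m) (hG.1.sh S m)
        have h5 : S.sq (fun x => S.sh m ρ x - S.sh m G x) = S.sq (fun x => ρ x - G x) :=
          S.sq_sh m (fun x => ρ x - G x)
        rw [h5] at h4
        have h6 : Real.sqrt (S.sq (fun x => ρ x - G x)) ≤ c₁ / 2 :=
          Real.sqrt_le_iff.2 ⟨by positivity, hGle⟩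
        have e1 : ∀ u : X → ℂ, (fun x => A l x * χ l x * S.sh m u x) =
            fun x => A l x * (S.sh m u x * χ l x) := fun u => by funext x; ring
        rw [e1, e1] at h4
        have h7 := norm_sub_norm_le (S.int (fun x => A l x * (S.sh m ρ x * χ l x)))
          (S.int (fun x => A l x * (S.sh m G x * χ l x)))
        linarith
      have h8 := h2.trans (av_mono M k h3)
      rw [av_add, av_const hM] at h8
      have h9 : c₁ / 2 ≤ av M k (fun l =>
        ‖S.int (fun x => A l x * (S.sh (∑ i, (l i : ℤ)) G x * χ l x))‖) := by linarith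
      have h10 := good_G S R₁ G hG (c₁ / 2) (by positivity) k M hM A hA χ hχ h9
      have h11 : c₂ ≤ (c₁ / 2) ^ (2 ^ k) := by
        have : 0 < (c₁ / 2) ^ (2 ^ k) := by positivity
        rw [hc₂']; linarith
      refine (h11.trans h10).trans ?_
      exact av_mono M k fun l => av_mono M k fun l' => ind_mono fun hg =>
        hg.dvd (Dvd.intro _ rfl)
  exact lower_finish S k hk M hM h hh A hA χ hχ c₀ hc₀ (fun l hl => hχ2 l hl) (R₁ * R₂) hR c₂ hc₂
    hgood

end lower

/-- duality between the averages and the dual functions -/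
lemma dual_id (S : Sys X) (H : ℕ) (P Q : ℤ[X]) {g w ψ : X → ℂ} (hg : B1 g) (hw : B1 w)
    (hψ : B1 ψ) : S.int (fun x => ψ x * conj (avg H (FF S P Q g w) x)) =
      S.int (fun x => avg H (fun h x => S.sh (P.eval (h : ℤ)) g x * S.sh (Q.eval (h : ℤ)) ψ x) x *
        conj (w x)) := by
  have hFB : ∀ n, B1 (FF S P Q g w n) := fun n => FF_B1 S _ _ hg hw n
  have e3 : (fun x => ψ x * conj (avg H (FF S P Q g w) x)) =
      fun x => avg H (fun n x => conj (FF S P Q g w n x)) x * ψ x := by
    funext x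
    simp only [avg, map_mul, map_inv₀, Complex.conj_natCast, map_sum]
    ring
  rw [e3, S.int_avg_mul (fun n => (hFB n).conj) H hψ,
    S.int_avg_mul (fun n => (hg.sh S _).mul (hψ.sh S _)) H hw.conj]
  congr 1
  refine Finset.sum_congr rfl fun n _ => ?_
  rw [← S.int_sh (Q.eval (n : ℤ))]
  congr 1; funext x
  simp only [FF, Sys.sh, ← S.τ_add, neg_add_cancel, S.τ_zero, map_mul, Complex.conj_conj]
  ring

/-- REC-12 -/
theorem core (S : Sys X) (D D' : ℕ) (hD : D < D') (C : ℤ) (hC : C ≠ 0)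
    (f : X → ℂ) (hf : B1 f) (hrat : S.RatNull f) (ε : ℝ) (hε : 0 < ε) :
    ∃ H₀ : ℕ, ∀ H ≥ H₀, ∀ P Q : ℤ[X], P.natDegree ≤ D → Q.natDegree = D' →
      Q.leadingCoeff = C → ∀ g : X → ℂ, B1 g →
        S.sq (avg H (fun h x => S.sh (P.eval (h : ℤ)) g x * S.sh (Q.eval (h : ℤ)) f x)) ≤ ε := by
  by_contra hcon
  push Not at hcon
  choose H hH P Q hP hQ hQC g hg hlt using hcon
  have hHt : Tendsto H atTop atTop := tendsto_atTop_mono hH tendsto_id
  set U : Ultrafilter ℕ := Ultrafilter.of atTop with hU'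
  have hU : (U : Filter ℕ) ≤ atTop := Ultrafilter.of_le _
  set w : ℕ → X → ℂ := fun j => avg (H j) (fun h x => S.sh ((P j).eval (h : ℤ)) (g j) x *
    S.sh ((Q j).eval (h : ℤ)) f x) with hw'
  have hw : ∀ j, B1 (w j) := fun j => B1.avg (fun h => ((hg j).sh S _).mul (hf.sh S _)) (H j)
  have hFB : ∀ j n, B1 (FF S (P j) (Q j) (g j) (w j) n) := fun j n =>
    FF_B1 S _ _ (hg j) (hw j) n
  obtain ⟨ft, hft, hlim⟩ := S.weak_limit (fun j => avg (H j) (FF S (P j) (Q j) (g j) (w j)))
    (fun j => B1.avg (hFB j) (H j)) U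
  have hs : Setup S D' C U H P Q g w ft :=
    { hU := hU, hH := hHt, hD := by omega, hC := hC, hP := fun j => (hP j).trans_lt hD,
      hQ := hQ, hQC := hQC, hg := hg, hw := hw, hft := hft, lim := hlim }
  -- the conjugate limits
  have hlim' : ∀ ψ : X → ℂ, B1 ψ → Tendsto (fun j => S.int (fun x => ψ x *
      conj (avg (H j) (FF S (P j) (Q j) (g j) (w j)) x))) U
      (𝓝 (S.int (fun x => ψ x * conj (ft x)))) := by
    intro ψ hψ
    have h1 := (Complex.continuous_conj.tendsto _).comp (hlim (fun x => conj (ψ x)) hψ.conj)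
    have e1 : ∀ u : X → ℂ, conj (S.int (fun x => u x * conj (ψ x))) =
        S.int (fun x => ψ x * conj (u x)) := by
      intro u
      unfold Sys.int
      rw [← integral_conj]
      congr 1; funext x
      simp only [map_mul, Complex.conj_conj]; ring
    rw [e1] at h1
    exact h1.congr fun j => e1 _
  obtain ⟨ρ, hρ, hratρ, happ0⟩ := rat_proj S ft hft
  have happ : ∀ ε : ℝ, 0 < ε → ∃ R : ℕ, 1 ≤ R ∧ ∃ G : X → ℂ, S.Inv R G ∧
      S.sq (fun x => ρ x - G x) ≤ ε := by
    intro ε hε
    obtain ⟨R, hR, G, hG, hle, -⟩ := happ0 ε hε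
    exact ⟨R, hR, G, hG, hle⟩
  set h : X → ℂ := fun x => (ft x - ρ x) / 2 with hh'
  have hh : B1 h := Sys.half_B1 hft hρ
  have hrath : S.RatNull h := by
    intro R hR G hG
    have := hratρ R hR G hG
    have e1 : (fun x => h x * conj (G x)) = fun x => (1 / 2 : ℂ) * ((ft x - ρ x) * conj (G x)) := by
      funext x; simp only [hh']; ring
    rw [e1, S.int_cmul, this, mul_zero]
  -- `h` is null
  have hdesc : ∀ k : ℕ, 1 ≤ k → ¬ ∃ c : ℝ, 0 < c ∧ ∀ r : ℕ, c ≤ S.Sk k (2 ^ r) h := by
    intro k hk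
    induction k, hk using Nat.le_induction with
    | base =>
      rintro ⟨c, hc, hcr⟩
      have hnu : c ≤ S.nu2 h := le_ciInf hcr
      obtain ⟨t, χ, hχ, hle⟩ := inverse S h hh c hc hnu
      have hzero : S.int (fun x => h x * conj (χ x)) = 0 := by
        by_cases hrt : ∃ i : ℕ, 1 ≤ i ∧ ∃ z : ℤ, (i : ℝ) * t = z
        · obtain ⟨i, hi, hz⟩ := hrt
          exact hrath i hi χ (hχ.inv hz)
        · push Not at hrt
          have e1 : S.int (fun x => h x * conj (χ x)) = (1 / 2) *
              (S.int (fun x => ft x * conj (χ x)) - S.int (fun x => conj (χ x) * ρ x)) := by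
            unfold Sys.int
            rw [← integral_sub (S.integrable (hft.mul hχ.1.conj))
              (S.integrable (hχ.1.conj.mul hρ)), ← integral_const_mul]
            congr 1; funext x; simp only [hh']; ring
          have e2 : S.int (fun x => conj (χ x) * ρ x) = 0 := by
            by_contra hne
            have hpos : 0 < ‖S.int (fun x => conj (χ x) * ρ x)‖ := norm_pos_iff.2 hne
            obtain ⟨R, hR, G, hG, hGle⟩ := happ ((‖S.int (fun x => conj (χ x) * ρ x)‖ / 2) ^ 2)
              (by positivity)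
            have h1 := S.norm_int_sub_le hχ.1.conj hρ hG.1
            have h2 : S.int (fun x => conj (χ x) * G x) = 0 := by
              have := S.int_mul_eig_eq_zero hG hχ.conj (fun z hz => hrt R hR (-z) (by
                push_cast; linarith))
              rw [← this]; congr 1; funext x; ring
            rw [h2, sub_zero] at h1
            have h3 : Real.sqrt (S.sq (fun x => ρ x - G x)) ≤
                ‖S.int (fun x => conj (χ x) * ρ x)‖ / 2 :=
              Real.sqrt_le_iff.2 ⟨by positivity, hGle⟩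
            linarith
          have e3 : S.int (fun x => ft x * conj (χ x)) = 0 := by
            by_contra hne
            have hpos : 0 < ‖S.int (fun x => ft x * conj (χ x))‖ := norm_pos_iff.2 hne
            set d := ‖S.int (fun x => ft x * conj (χ x))‖ with hd
            obtain ⟨ℓ, hℓ⟩ := hs.weyl_box (d / 2) (by positivity)
            have h1 := hℓ 0 Fin.elim0 Fin.elim0 (fun x => conj (χ x)) (-t) hχ.conj
              (fun i h1 h2 z hz => hrt i h1 (-z) (by push_cast; linarith))
            have h2 := (hlim (fun x => conj (χ x)) hχ.1.conj).norm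
            have h3 : ∀ᶠ j in (U : Filter ℕ), ‖S.int (fun x =>
                avg (H j) (FF S (P j) (Q j) (g j) (w j)) x * conj (χ x))‖ ≤ d / 2 := by
              refine Filter.Eventually.mono (hU h1) fun j hj => ?_
              rw [S.int_avg_mul (hFB j) (H j) hχ.1.conj]
              exact hj
            have h4 := le_of_tendsto h2 h3
            linarith
          rw [e1, e2, e3]; simp
      rw [hzero] at hle
      simp at hle
      linarith
    | succ k hk ih =>
      rintro ⟨c, hc, hcr⟩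
      exact ih (hs.lower ρ hρ happ k hk c hc hcr)
  have hnull : S.Null h := by
    intro k hk c hc
    by_contra hne
    push Not at hne
    exact hdesc k hk ⟨c, hc, hne⟩
  -- hence `h` is orthogonal to the weak limit
  have horth : S.int (fun x => h x * conj (ft x)) = 0 := by
    by_contra hne
    have hpos : 0 < ‖S.int (fun x => h x * conj (ft x))‖ := norm_pos_iff.2 hne
    set d := ‖S.int (fun x => h x * conj (ft x))‖ with hd
    obtain ⟨H₀, hH₀⟩ := seminorm_control S D D' hD C hC h hh hnull ((d / 2) ^ 2) (by positivity)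
    have h2 := (hlim' h hh).norm
    have h3 : ∀ᶠ j in (U : Filter ℕ), ‖S.int (fun x => h x *
        conj (avg (H j) (FF S (P j) (Q j) (g j) (w j)) x))‖ ≤ d / 2 := by
      refine Filter.Eventually.mono (hU (hHt.eventually_ge_atTop H₀)) fun j hj => ?_
      rw [dual_id S (H j) (P j) (Q j) (hg j) (hw j) hh]
      have h4 := hH₀ (H j) hj (P j) (Q j) (hP j) (hQ j) (hQC j) (g j) (hg j)
      have h5 := S.cs_one (B1.avg (fun n => ((hg j).sh S ((P j).eval (n : ℤ))).mul
        (hh.sh S ((Q j).eval (n : ℤ)))) (H j)) (hw j).conj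
      exact (abs_le_of_sq_le_sq' (h5.trans h4) (by positivity)).2
    have h4 := le_of_tendsto h2 h3
    linarith
  have hsq : S.sq h = 0 := by
    have e1 : S.int (fun x => h x * conj (ft x)) =
        2 * ((S.sq h : ℝ) : ℂ) + S.int (fun x => h x * conj (ρ x)) := by
      rw [S.sq_eq_int, ← S.int_cmul, ← S.int_add]
      · congr 1; funext x
        have : ft x = 2 * h x + ρ x := by simp only [hh']; ring
        rw [this, map_add, map_mul]
        simp only [Complex.conj_ofNat]; ring
      · exact (S.integrable (hh.mul hh.conj)).const_mul 2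
      · exact S.integrable (hh.mul hρ.conj)
    rw [horth, S.int_ratNull hh hρ hrath happ, add_zero] at e1
    have h2 : ((S.sq h : ℝ) : ℂ) = 0 := by
      rcases mul_eq_zero.1 e1.symm with h3 | h3
      · norm_num at h3
      · exact h3
    exact_mod_cast h2
  have hae : ∀ᵐ x ∂S.μ, ft x = ρ x := by
    have h1 := (integral_eq_zero_iff_of_nonneg (fun x => by positivity)
      (S.integrable_sq hh)).1 hsq
    filter_upwards [h1] with x hx
    have h2 : ‖h x‖ ^ 2 = 0 := hx
    have h3 : h x = 0 := by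
      rw [← norm_eq_zero]; exact pow_eq_zero_iff (by norm_num) |>.1 h2
    have h4 : (ft x - ρ x) / 2 = 0 := h3
    have h5 : ft x - ρ x = 0 := by
      rcases div_eq_zero_iff.1 h4 with h6 | h6
      · exact h6
      · norm_num at h6
    exact sub_eq_zero.1 h5
  -- but `f` correlates with the weak limit
  have h1 : S.int (fun x => f x * conj (ft x)) = 0 := by
    rw [← S.int_ratNull hf hρ hrat happ]
    apply S.int_congr_ae
    filter_upwards [hae] with x hx
    rw [hx]
  have h2 := (hlim' f hf).norm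
  rw [h1, norm_zero] at h2
  have h3 : ∀ j, ε ≤ ‖S.int (fun x => f x * conj (avg (H j) (FF S (P j) (Q j) (g j) (w j)) x))‖ := by
    intro j
    rw [dual_id S (H j) (P j) (Q j) (hg j) (hw j) hf]
    have e1 : S.int (fun x => avg (H j) (fun h x => S.sh ((P j).eval (h : ℤ)) (g j) x *
        S.sh ((Q j).eval (h : ℤ)) f x) x * conj (w j x)) = ((S.sq (w j) : ℝ) : ℂ) := by
      rw [S.sq_eq_int]
    rw [e1, Complex.norm_real]
    exact (hlt j).le.trans (le_abs_self _)
  have h4 := ge_of_tendsto h2 (Filter.Eventually.of_forall h3)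
  linarith

end Pool.Agent.Helper50.Rec
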