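import Mathlib
import Pool.Agent.Helper50.Rec.Core
import Pool.Agent.Helper79.Rec.Corr
import Pool.Agent.Helper47.Rec.Single
import Pool.Agent.Helper50.Rec.Arith

/-!
# Recurrence and the final theorem
-/

open MeasureTheory Polynomial Finset Filter Topology
open scoped BigOperators ComplexConjugate

set_option linter.unusedSectionVars false
set_option linter.unusedVariables false

namespace Pool.Agent.Helper50.Rec

variable {X : Type} [MeasurableSpace X]

lemma Inv.iter {S : Sys X} {R : ℕ} {G : X → ℂ} (h : S.Inv R G) {n : ℤ} (hn : (R : ℤ) ∣ n) :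
    ∀ᵐ x ∂S.μ, S.sh n G x = G x := by
  obtain ⟨m, rfl⟩ := hn
  have hpos : ∀ m : ℕ, ∀ᵐ x ∂S.μ, G (S.τ ((R : ℤ) * m) x) = G x := by
    intro m
    induction m with
    | zero => simp [S.τ_zero]
    | succ m ih =>
      filter_upwards [ih, S.ae_sh ((R : ℤ) * m) h.2] with x h1 h2
      rw [show (R : ℤ) * ((m + 1 : ℕ) : ℤ) = (R : ℤ) + (R : ℤ) * m by push_cast; ring, S.τ_add,
        h2, h1]
  rcases Int.eq_nat_or_neg m with ⟨k, rfl | rfl⟩
  · exact hpos k
  · filter_upwards [S.ae_sh ((R : ℤ) * -(k : ℤ)) (hpos k)] with x hx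
    rw [← S.τ_add, mul_neg, add_neg_cancel, S.τ_zero] at hx
    simp only [Sys.sh, mul_neg]
    exact hx.symm

lemma dvd_eval {r : ℤ} {A : ℤ[X]} (h : ∀ i, r ∣ A.coeff i) (x : ℤ) : r ∣ A.eval x := by
  rw [Polynomial.eval_eq_sum_range]
  exact Finset.dvd_sum fun i _ => (h i).mul_right _

lemma int_comb (S : Sys X) {u v w : X → ℂ} (hu : Integrable u S.μ) (hv : Integrable v S.μ)
    (hw : Integrable w S.μ) : S.int (fun x => 2 * u x + 2 * v x + w x) =
      2 * S.int u + 2 * S.int v + S.int w := by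
  unfold Sys.int
  have h1 : Integrable (fun x => 2 * u x) S.μ := hu.const_mul 2
  have h2 : Integrable (fun x => 2 * v x) S.μ := hv.const_mul 2
  have h3 : Integrable (fun x => 2 * u x + 2 * v x) S.μ := h1.add h2
  rw [integral_add h3 hw, integral_add h1 h2, integral_const_mul, integral_const_mul]

/-- the recurrence theorem -/
theorem recur (S : Sys X) (A : Set X) (hA : MeasurableSet A) (hpos : 0 < S.μ A) (a b : ℝ)
    (ha : 1 < a) (hab : a < b) (ha' : ∀ k : ℤ, a ≠ k) (hb' : ∀ k : ℤ, b ≠ k) :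
    ∃ n : ℕ, 0 < n ∧ ⌊(n : ℝ) ^ a⌋₊ ≠ ⌊(n : ℝ) ^ b⌋₊ ∧
      0 < S.μ (A ∩ (S.τ ((⌊(n : ℝ) ^ a⌋₊ ^ 2 : ℕ) : ℤ) ⁻¹' A ∩
        S.τ ((⌊(n : ℝ) ^ b⌋₊ ^ 2 : ℕ) : ℤ) ⁻¹' A)) := by
  classical
  by_contra hcon
  push Not at hcon
  have hcon' : ∀ n : ℕ, 0 < n → ⌊(n : ℝ) ^ a⌋₊ ≠ ⌊(n : ℝ) ^ b⌋₊ →
      S.μ (A ∩ (S.τ ((⌊(n : ℝ) ^ a⌋₊ ^ 2 : ℕ) : ℤ) ⁻¹' A ∩
        S.τ ((⌊(n : ℝ) ^ b⌋₊ ^ 2 : ℕ) : ℤ) ⁻¹' A)) = 0 := fun n h1 h2 =>
    nonpos_iff_eq_zero.1 (hcon n h1 h2)
  set f : X → ℂ := A.indicator (fun _ => 1) with hf'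
  have hf : B1 f := by
    refine ⟨measurable_const.indicator hA, fun x => ?_⟩
    by_cases hx : x ∈ A
    · rw [hf', Set.indicator_of_mem hx]; simp
    · rw [hf', Set.indicator_of_notMem hx]; simp
  have hfnn : ∀ x, ∃ y : ℝ, 0 ≤ y ∧ f x = y := by
    intro x
    by_cases hx : x ∈ A
    · exact ⟨1, by norm_num, by rw [hf', Set.indicator_of_mem hx]; simp⟩
    · exact ⟨0, le_rfl, by rw [hf', Set.indicator_of_notMem hx]; simp⟩
  set δ : ℝ := (S.μ A).toReal with hδ'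
  have hδ : 0 < δ := ENNReal.toReal_pos hpos.ne' (measure_ne_top _ _)
  have hintf : S.int f = (δ : ℂ) := by
    unfold Sys.int
    rw [hf', integral_indicator hA]
    simp [hδ', Measure.real]
  set η : ℝ := δ ^ 3 / 16 with hη'
  have hη : 0 < η := by positivity
  obtain ⟨ρ, hρ, hratρ, happ⟩ := rat_proj S f hf
  obtain ⟨R, hR, G, hG, hGle, hGorth, hGnn0⟩ := happ (η ^ 2) (by positivity)
  have hGnn := hGnn0 hfnn
  set f' : X → ℂ := fun x => (f x - ρ x) / 2 with hf''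
  have hf'B : B1 f' := Sys.half_B1 hf hρ
  have hrat : S.RatNull f' := by
    intro R hR G hG
    have := hratρ R hR G hG
    have e1 : (fun x => f' x * conj (G x)) =
        fun x => (1 / 2 : ℂ) * ((f x - ρ x) * conj (G x)) := by
      funext x; simp only [hf'']; ring
    rw [e1, S.int_cmul, this, mul_zero]
  obtain ⟨e, D, he, heD, s, hs, hmain⟩ := arith a b ha hab ha' hb'
  have hR0 : ((R : ℤ)) ≠ 0 := by exact_mod_cast (by omega : R ≠ 0)
  obtain ⟨H₀, hH₀⟩ := core S (2 * e) (2 * D) (by omega) ((R : ℤ) ^ 2) (pow_ne_zero 2 hR0) f'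
    hf'B hrat (η ^ 2) (by positivity)
  obtain ⟨H₁, hH₁⟩ := eprime S e he R hR f' hf'B hrat (η ^ 2) (by positivity)
  set H : ℕ := max (max H₀ H₁) 1 with hH'
  have hHH0 : H ≥ H₀ := (le_max_left H₀ H₁).trans (le_max_left _ _)
  have hHH1 : H ≥ H₁ := (le_max_right H₀ H₁).trans (le_max_left _ _)
  have hH1 : 1 ≤ H := le_max_right _ _
  have hHR : (0 : ℝ) < H := by exact_mod_cast hH1
  obtain ⟨L₀, hL₀⟩ := hH₁ H hHH1
  obtain ⟨L, x₀, hL, hx⟩ := hmain R H (max L₀ 1) hR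
  have hLL0 : L₀ ≤ L := (le_max_left _ _).trans hL
  have hL1 : 1 ≤ L := (le_max_right _ _).trans hL
  have hx2 : ∀ x : ℤ, ∃ A B : ℤ[X], ∃ n : ℕ → ℕ, x₀ ≤ x ∧ x < x₀ + L →
          A.natDegree = e ∧ A.leadingCoeff = R * x ∧ (∀ i, (R : ℤ) ∣ A.coeff i) ∧
          B.natDegree = D ∧ B.leadingCoeff = s * R ∧ (∀ i, (R : ℤ) ∣ B.coeff i) ∧
          ∀ h < H, 0 < n h ∧ ((⌊(n h : ℝ) ^ a⌋₊ : ℕ) : ℤ) = A.eval (h : ℤ) ∧
            ((⌊(n h : ℝ) ^ b⌋₊ : ℕ) : ℤ) = B.eval (h : ℤ) ∧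
            ⌊(n h : ℝ) ^ a⌋₊ ≠ ⌊(n h : ℝ) ^ b⌋₊ := by
    intro x
    by_cases hxr : x₀ ≤ x ∧ x < x₀ + L
    · obtain ⟨A, B, n, hh⟩ := hx x hxr.1 hxr.2
      exact ⟨A, B, n, fun _ => hh⟩
    · exact ⟨0, 0, fun _ => 0, fun h => absurd h hxr⟩
  choose PA PB n hn using hx2
  -- pick a good base point
  have hsel := hL₀ L hLL0 x₀ (fun x => (PA x) ^ 2) (by
    intro x h1 h2
    obtain ⟨h3, h4, -⟩ := hn x ⟨h1, h2⟩
    refine ⟨?_, ?_⟩
    · rw [Polynomial.natDegree_pow, h3]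
    · rw [Polynomial.leadingCoeff_pow, h4])
  obtain ⟨i, hi, hile⟩ : ∃ i ∈ range L,
      S.sq (avg H (fun h => S.sh (((PA (x₀ + i)) ^ 2).eval (h : ℤ)) f')) ≤ η ^ 2 := by
    apply Finset.exists_le_of_sum_le (⟨0, by simp; omega⟩ : (range L).Nonempty)
    rw [Finset.sum_const, card_range, nsmul_eq_mul]
    have hLR : (0 : ℝ) < L := by exact_mod_cast hL1
    rw [inv_mul_le_iff₀ hLR] at hsel
    exact hsel
  set x : ℤ := x₀ + i with hx'
  have hxr : x₀ ≤ x ∧ x < x₀ + L := by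
    rw [mem_range] at hi
    constructor <;> omega
  obtain ⟨hAd, hAl, hAc, hBd, hBl, hBc, hfl⟩ := hn x hxr
  set P : ℤ[X] := (PA x) ^ 2 with hP
  set Q : ℤ[X] := (PB x) ^ 2 with hQ
  have hPd : P.natDegree ≤ 2 * e := by rw [hP, Polynomial.natDegree_pow, hAd]
  have hQd : Q.natDegree = 2 * D := by rw [hQ, Polynomial.natDegree_pow, hBd]
  have hQl : Q.leadingCoeff = (R : ℤ) ^ 2 := by
    rw [hQ, Polynomial.leadingCoeff_pow, hBl]
    rcases hs with rfl | rfl <;> ring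
  have hPdvd : ∀ h : ℕ, (R : ℤ) ∣ P.eval (h : ℤ) := fun h => by
    rw [hP, Polynomial.eval_pow]
    exact dvd_pow (dvd_eval hAc _) (by norm_num)
  have hQdvd : ∀ h : ℕ, (R : ℤ) ∣ Q.eval (h : ℤ) := fun h => by
    rw [hQ, Polynomial.eval_pow]
    exact dvd_pow (dvd_eval hBc _) (by norm_num)
  have hcore := hH₀ H hHH0 P Q hPd hQd hQl f hf
  -- the triple integrals vanish
  have hzero : ∀ h ∈ range H, S.int (fun y => f y * (S.sh (P.eval (h : ℤ)) f y *
      S.sh (Q.eval (h : ℤ)) f y)) = 0 := by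
    intro h hh
    rw [mem_range] at hh
    obtain ⟨hn0, hfa, hfb, hne⟩ := hfl h hh
    have h0 := hcon' (n x h) hn0 hne
    have eP : (((⌊((n x h : ℕ) : ℝ) ^ a⌋₊ ^ 2 : ℕ)) : ℤ) = P.eval (h : ℤ) := by
      rw [hP, Polynomial.eval_pow, ← hfa]; push_cast; rfl
    have eQ : (((⌊((n x h : ℕ) : ℝ) ^ b⌋₊ ^ 2 : ℕ)) : ℤ) = Q.eval (h : ℤ) := by
      rw [hQ, Polynomial.eval_pow, ← hfb]; push_cast; rfl
    rw [eP, eQ] at h0
    have h1 : ∀ᵐ y ∂S.μ, f y * (S.sh (P.eval (h : ℤ)) f y * S.sh (Q.eval (h : ℤ)) f y) = 0 := by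
      filter_upwards [measure_eq_zero_iff_ae_notMem.1 h0] with y hy
      by_contra hne2
      apply hy
      have m1 : f y ≠ 0 := fun h => hne2 (by rw [h, zero_mul])
      have m2 : S.sh (P.eval (h : ℤ)) f y ≠ 0 := fun h => hne2 (by rw [h]; ring)
      have m3 : S.sh (Q.eval (h : ℤ)) f y ≠ 0 := fun h => hne2 (by rw [h]; ring)
      have key : ∀ z, f z ≠ 0 → z ∈ A := fun z hz => by
        by_contra hzA
        exact hz (by rw [hf', Set.indicator_of_notMem hzA])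
      exact ⟨key y m1, key _ m2, key _ m3⟩
    rw [S.int_congr_ae h1]; simp [Sys.int]
  -- notation for averages of integrals
  have hB2 : ∀ (u : X → ℂ) (hu : B1 u) (h : ℕ), B1 (S.sh (P.eval (h : ℤ)) u) := fun u hu h =>
    hu.sh S _
  -- first replacement
  have hrep1 : ‖(H : ℂ)⁻¹ * ∑ h ∈ range H, S.int (fun y => (f y * G y) *
      S.sh (P.eval (h : ℤ)) f y)‖ ≤ 3 * η := by
    have e1 : ∀ h ∈ range H, S.int (fun y => (f y * G y) * S.sh (P.eval (h : ℤ)) f y) =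
        -(2 * S.int (fun y => (S.sh (P.eval (h : ℤ)) f y * S.sh (Q.eval (h : ℤ)) f' y) * f y) +
          2 * S.int (fun y => S.sh (Q.eval (h : ℤ)) (fun z => (ρ z - G z) / 2) y *
            (S.sh (P.eval (h : ℤ)) f y * f y))) := by
      intro h hh
      have h0 := hzero h hh
      have i1 : Integrable (fun y => (S.sh (P.eval (h : ℤ)) f y *
          S.sh (Q.eval (h : ℤ)) f' y) * f y) S.μ :=
        S.integrable (((hf.sh S _).mul (hf'B.sh S _)).mul hf)
      have i2 : Integrable (fun y => S.sh (Q.eval (h : ℤ)) (fun z => (ρ z - G z) / 2) y *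
            (S.sh (P.eval (h : ℤ)) f y * f y)) S.μ :=
        S.integrable (((Sys.half_B1 hρ hG.1).sh S _).mul ((hf.sh S _).mul hf))
      have i3 : Integrable (fun y => (f y * G y) * S.sh (P.eval (h : ℤ)) f y) S.μ :=
        S.integrable ((hf.mul hG.1).mul (hf.sh S _))
      have e2 : S.int (fun y => f y * (S.sh (P.eval (h : ℤ)) f y *
          S.sh (Q.eval (h : ℤ)) f y)) =
          2 * S.int (fun y => (S.sh (P.eval (h : ℤ)) f y * S.sh (Q.eval (h : ℤ)) f' y) * f y) +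
          2 * S.int (fun y => S.sh (Q.eval (h : ℤ)) (fun z => (ρ z - G z) / 2) y *
            (S.sh (P.eval (h : ℤ)) f y * f y)) +
          S.int (fun y => (f y * G y) * S.sh (P.eval (h : ℤ)) f y) := by
        rw [← int_comb S i1 i2 i3]
        apply S.int_congr_ae
        filter_upwards [Inv.iter hG (hQdvd h)] with y hy
        have h1 : S.sh (Q.eval (h : ℤ)) f' y = (S.sh (Q.eval (h : ℤ)) f y -
          S.sh (Q.eval (h : ℤ)) ρ y) / 2 := rfl
        have h2 : S.sh (Q.eval (h : ℤ)) (fun z => (ρ z - G z) / 2) y =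
          (S.sh (Q.eval (h : ℤ)) ρ y - S.sh (Q.eval (h : ℤ)) G y) / 2 := rfl
        rw [h1, h2, hy]; ring
      rw [h0] at e2
      linear_combination -e2
    rw [Finset.sum_congr rfl e1]
    have e3 : (H : ℂ)⁻¹ * ∑ h ∈ range H,
        -(2 * S.int (fun y => (S.sh (P.eval (h : ℤ)) f y * S.sh (Q.eval (h : ℤ)) f' y) * f y) +
          2 * S.int (fun y => S.sh (Q.eval (h : ℤ)) (fun z => (ρ z - G z) / 2) y *
            (S.sh (P.eval (h : ℤ)) f y * f y))) =
        -(2 * S.int (fun y => avg H (fun h y => S.sh (P.eval (h : ℤ)) f y *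
            S.sh (Q.eval (h : ℤ)) f' y) y * f y) +
          2 * ((H : ℂ)⁻¹ * ∑ h ∈ range H,
            S.int (fun y => S.sh (Q.eval (h : ℤ)) (fun z => (ρ z - G z) / 2) y *
            (S.sh (P.eval (h : ℤ)) f y * f y)))) := by
      rw [S.int_avg_mul (fun h => (hf.sh S _).mul (hf'B.sh S _)) H hf, Finset.sum_neg_distrib,
        Finset.sum_add_distrib, ← Finset.mul_sum, ← Finset.mul_sum]
      ring
    rw [e3, norm_neg]
    have b1 : ‖S.int (fun y => avg H (fun h y => S.sh (P.eval (h : ℤ)) f y *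
            S.sh (Q.eval (h : ℤ)) f' y) y * f y)‖ ≤ η := by
      have h5 := S.cs_one (B1.avg (fun h : ℕ => (hf.sh S (P.eval (h : ℤ))).mul
        (hf'B.sh S (Q.eval (h : ℤ)))) H) hf
      exact (abs_le_of_sq_le_sq' (h5.trans hcore) hη.le).2
    have b2 : ‖(H : ℂ)⁻¹ * ∑ h ∈ range H,
            S.int (fun y => S.sh (Q.eval (h : ℤ)) (fun z => (ρ z - G z) / 2) y *
            (S.sh (P.eval (h : ℤ)) f y * f y))‖ ≤ η / 2 := by
      rw [norm_mul, norm_inv, Complex.norm_natCast, inv_mul_le_iff₀ hHR]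
      refine (norm_sum_le _ _).trans ?_
      calc ∑ h ∈ range H, ‖S.int (fun y => S.sh (Q.eval (h : ℤ)) (fun z => (ρ z - G z) / 2) y *
            (S.sh (P.eval (h : ℤ)) f y * f y))‖ ≤ ∑ h ∈ range H, (η / 2) := by
            refine Finset.sum_le_sum fun h _ => ?_
            have h5 := S.cs_one ((Sys.half_B1 hρ hG.1).sh S (Q.eval (h : ℤ)))
              ((hf.sh S (P.eval (h : ℤ))).mul hf)
            rw [S.sq_sh, S.sq_half] at h5
            refine (abs_le_of_sq_le_sq' (h5.trans ?_) (by positivity)).2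
            calc S.sq (fun z => ρ z - G z) / 4 ≤ η ^ 2 / 4 := by gcongr
              _ = (η / 2) ^ 2 := by ring
        _ = H * (η / 2) := by simp
    calc _ ≤ ‖2 * S.int (fun y => avg H (fun h y => S.sh (P.eval (h : ℤ)) f y *
            S.sh (Q.eval (h : ℤ)) f' y) y * f y)‖ + ‖2 * ((H : ℂ)⁻¹ * ∑ h ∈ range H,
            S.int (fun y => S.sh (Q.eval (h : ℤ)) (fun z => (ρ z - G z) / 2) y *
            (S.sh (P.eval (h : ℤ)) f y * f y)))‖ := norm_add_le _ _
      _ ≤ 2 * η + 2 * (η / 2) := by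
        rw [norm_mul, norm_mul, Complex.norm_ofNat]
        gcongr
      _ = 3 * η := by ring
  -- second replacement
  have hrep2 : ‖(H : ℂ)⁻¹ * ∑ h ∈ range H, S.int (fun y => (f y * G y) *
      S.sh (P.eval (h : ℤ)) f y) - S.int (fun y => f y * G y * G y)‖ ≤ 3 * η := by
    have hfG : B1 (fun y => f y * G y) := hf.mul hG.1
    have e1 : ∀ h ∈ range H, S.int (fun y => (f y * G y) * S.sh (P.eval (h : ℤ)) f y) =
        2 * S.int (fun y => S.sh (P.eval (h : ℤ)) f' y * (f y * G y)) +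
          2 * S.int (fun y => S.sh (P.eval (h : ℤ)) (fun z => (ρ z - G z) / 2) y * (f y * G y)) +
          S.int (fun y => f y * G y * G y) := by
      intro h hh
      have i1 : Integrable (fun y => S.sh (P.eval (h : ℤ)) f' y * (f y * G y)) S.μ :=
        S.integrable ((hf'B.sh S _).mul hfG)
      have i2 : Integrable (fun y => S.sh (P.eval (h : ℤ)) (fun z => (ρ z - G z) / 2) y *
            (f y * G y)) S.μ :=
        S.integrable (((Sys.half_B1 hρ hG.1).sh S _).mul hfG)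
      have i3 : Integrable (fun y => f y * G y * G y) S.μ := S.integrable (hfG.mul hG.1)
      rw [← int_comb S i1 i2 i3]
      apply S.int_congr_ae
      filter_upwards [Inv.iter hG (hPdvd h)] with y hy
      have h1 : S.sh (P.eval (h : ℤ)) f' y = (S.sh (P.eval (h : ℤ)) f y -
          S.sh (P.eval (h : ℤ)) ρ y) / 2 := rfl
      have h2 : S.sh (P.eval (h : ℤ)) (fun z => (ρ z - G z) / 2) y =
          (S.sh (P.eval (h : ℤ)) ρ y - S.sh (P.eval (h : ℤ)) G y) / 2 := rfl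
      rw [h1, h2, hy]; ring
    rw [Finset.sum_congr rfl e1, Finset.sum_add_distrib, Finset.sum_add_distrib,
      ← Finset.mul_sum, ← Finset.mul_sum, Finset.sum_const, card_range, nsmul_eq_mul]
    have hHC : (H : ℂ) ≠ 0 := by exact_mod_cast hHR.ne'
    have e3 : (H : ℂ)⁻¹ * (2 * ∑ h ∈ range H,
          S.int (fun y => S.sh (P.eval (h : ℤ)) f' y * (f y * G y)) +
        2 * ∑ h ∈ range H,
          S.int (fun y => S.sh (P.eval (h : ℤ)) (fun z => (ρ z - G z) / 2) y * (f y * G y)) +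
        H * S.int (fun y => f y * G y * G y)) - S.int (fun y => f y * G y * G y) =
        2 * S.int (fun y => avg H (fun h => S.sh (P.eval (h : ℤ)) f') y * (f y * G y)) +
        2 * ((H : ℂ)⁻¹ * ∑ h ∈ range H,
          S.int (fun y => S.sh (P.eval (h : ℤ)) (fun z => (ρ z - G z) / 2) y *
            (f y * G y))) := by
      rw [S.int_avg_mul (fun h => hf'B.sh S _) H hfG]
      field_simp
      ring
    rw [e3]
    have b1 : ‖S.int (fun y => avg H (fun h => S.sh (P.eval (h : ℤ)) f') y * (f y * G y))‖ ≤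
        η := by
      have h5 := S.cs_one (B1.avg (fun h : ℕ => (hf'B.sh S (P.eval (h : ℤ)))) H) hfG
      exact (abs_le_of_sq_le_sq' (h5.trans hile) hη.le).2
    have b2 : ‖(H : ℂ)⁻¹ * ∑ h ∈ range H,
            S.int (fun y => S.sh (P.eval (h : ℤ)) (fun z => (ρ z - G z) / 2) y *
            (f y * G y))‖ ≤ η / 2 := by
      rw [norm_mul, norm_inv, Complex.norm_natCast, inv_mul_le_iff₀ hHR]
      refine (norm_sum_le _ _).trans ?_
      calc ∑ h ∈ range H, ‖S.int (fun y => S.sh (P.eval (h : ℤ)) (fun z => (ρ z - G z) / 2) y *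
            (f y * G y))‖ ≤ ∑ h ∈ range H, (η / 2) := by
            refine Finset.sum_le_sum fun h _ => ?_
            have h5 := S.cs_one ((Sys.half_B1 hρ hG.1).sh S (P.eval (h : ℤ))) hfG
            rw [S.sq_sh, S.sq_half] at h5
            refine (abs_le_of_sq_le_sq' (h5.trans ?_) (by positivity)).2
            calc S.sq (fun z => ρ z - G z) / 4 ≤ η ^ 2 / 4 := by gcongr
              _ = (η / 2) ^ 2 := by ring
        _ = H * (η / 2) := by simp
    calc _ ≤ ‖2 * S.int (fun y => avg H (fun h => S.sh (P.eval (h : ℤ)) f') y *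
            (f y * G y))‖ + ‖2 * ((H : ℂ)⁻¹ * ∑ h ∈ range H,
            S.int (fun y => S.sh (P.eval (h : ℤ)) (fun z => (ρ z - G z) / 2) y *
            (f y * G y)))‖ := norm_add_le _ _
      _ ≤ 2 * η + 2 * (η / 2) := by
        rw [norm_mul, norm_mul, Complex.norm_ofNat]
        gcongr
      _ = 3 * η := by ring
  -- lower bound of the main term
  have hmainterm : δ ^ 3 ≤ ‖S.int (fun y => f y * G y * G y)‖ := by
    -- real representatives
    choose y hy0 hyG using hGnn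
    have hyle : ∀ z, y z ≤ 1 := fun z => by
      have := hG.1.2 z
      rw [hyG z, Complex.norm_real, Real.norm_of_nonneg (hy0 z)] at this
      exact this
    have hym : Measurable y := by
      have : y = fun z => (G z).re := by funext z; rw [hyG z, Complex.ofReal_re]
      rw [this]; exact Complex.measurable_re.comp hG.1.1
    have hyint : ∀ k : ℕ, Integrable (fun z => y z ^ k) S.μ := fun k => by
      refine Integrable.of_bound (hym.pow_const k).aestronglyMeasurable 1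
        (Filter.Eventually.of_forall fun z => ?_)
      rw [Real.norm_of_nonneg (pow_nonneg (hy0 z) k)]
      exact pow_le_one₀ (hy0 z) (hyle z)
    -- `∫ f G² = ∫ G³`
    have e1 : S.int (fun z => f z * G z * G z) = ((∫ z, y z ^ 3 ∂S.μ : ℝ) : ℂ) := by
      have hG2 : S.Inv R (fun z => G z * G z) := by
        refine ⟨hG.1.mul hG.1, ?_⟩
        filter_upwards [hG.2] with z hz
        rw [hz]
      have h1 := hGorth _ hG2
      have h2 : S.int (fun x => (f x - G x) * conj (G x * G x)) =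
          S.int (fun z => f z * G z * G z) - S.int (fun z => G z * G z * G z) := by
        unfold Sys.int
        rw [← integral_sub (S.integrable ((hf.mul hG.1).mul hG.1))
          (S.integrable ((hG.1.mul hG.1).mul hG.1))]
        congr 1; funext z
        show (f z - G z) * conj (G z * G z) = f z * G z * G z - G z * G z * G z
        rw [hyG z]; simp only [map_mul, Complex.conj_ofReal]; ring
      rw [h2] at h1
      rw [sub_eq_zero.1 h1]
      unfold Sys.int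
      rw [← integral_complex_ofReal]
      congr 1; funext z
      show G z * G z * G z = ((y z ^ 3 : ℝ) : ℂ)
      rw [hyG z]; push_cast; ring
    -- `∫ G = δ`
    have e2 : ∫ z, y z ∂S.μ = δ := by
      have hone : S.Inv R (fun _ => (1 : ℂ)) := ⟨B1.one, Filter.Eventually.of_forall fun _ => rfl⟩
      have h1 := hGorth _ hone
      have h2 : S.int (fun x => (f x - G x) * conj ((1 : ℂ))) = S.int f - S.int G := by
        unfold Sys.int
        rw [← integral_sub (S.integrable hf) (S.integrable hG.1)]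
        congr 1; funext z; simp
      rw [h2, hintf] at h1
      have h3 : S.int G = ((∫ z, y z ∂S.μ : ℝ) : ℂ) := by
        unfold Sys.int
        rw [← integral_complex_ofReal]
        congr 1; funext z; exact hyG z
      rw [h3] at h1
      exact_mod_cast (sub_eq_zero.1 h1).symm
    rw [e1, Complex.norm_real]
    refine le_trans ?_ (le_abs_self _)
    have h4 : ∫ z, (3 * δ ^ 2 * y z - 2 * δ ^ 3) ∂S.μ ≤ ∫ z, y z ^ 3 ∂S.μ := by
      refine integral_mono ?_ (hyint 3) fun z => ?_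
      · have := hyint 1
        simp only [pow_one] at this
        exact (this.const_mul _).sub (integrable_const _)
      · have h5 : 0 ≤ (y z - δ) ^ 2 * (y z + 2 * δ) :=
          mul_nonneg (_root_.sq_nonneg _) (by linarith [hy0 z])
        have h6 : y z ^ 3 - (3 * δ ^ 2 * y z - 2 * δ ^ 3) = (y z - δ) ^ 2 * (y z + 2 * δ) := by
          ring
        show 3 * δ ^ 2 * y z - 2 * δ ^ 3 ≤ y z ^ 3
        linarith
    have h5 : ∫ z, (3 * δ ^ 2 * y z - 2 * δ ^ 3) ∂S.μ = δ ^ 3 := by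
      have hy1 := hyint 1
      simp only [pow_one] at hy1
      rw [integral_sub (hy1.const_mul _) (integrable_const _), integral_const_mul, e2]
      simp; ring
    linarith
  -- contradiction
  have hfin : ‖S.int (fun y => f y * G y * G y)‖ ≤ 3 * η + 3 * η := by
    have := norm_le_norm_add_norm_sub' (S.int (fun y => f y * G y * G y))
      ((H : ℂ)⁻¹ * ∑ h ∈ range H, S.int (fun y => (f y * G y) * S.sh (P.eval (h : ℤ)) f y))
    rw [norm_sub_rev] at this
    linarith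
  have : η = δ ^ 3 / 16 := rfl
  have h3 : 0 < δ ^ 3 := by positivity
  linarith

/-- the case `a < b` -/
theorem main_lt (a b : ℝ) (ha : 1 < a) (hab : a < b) (ha' : ∀ k : ℤ, a ≠ k)
    (hb' : ∀ k : ℤ, b ≠ k) (E : Set ℕ)
    (hE : ∃ δ : ℝ, 0 < δ ∧ ∀ N₀ : ℕ, ∃ N : ℕ, N₀ ≤ N ∧
      δ * (N : ℝ) ≤ (({k : ℕ | k ∈ E ∧ k < N}.ncard : ℕ) : ℝ)) :
    ∃ m n : ℕ, 0 < n ∧ ⌊(n : ℝ) ^ a⌋₊ ≠ ⌊(n : ℝ) ^ b⌋₊ ∧
      m ∈ E ∧ m + ⌊(n : ℝ) ^ a⌋₊ ^ 2 ∈ E ∧ m + ⌊(n : ℝ) ^ b⌋₊ ^ 2 ∈ E := by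
  obtain ⟨X, mX, S, A, hA, hpos, hm⟩ := exists_system E hE
  obtain ⟨n, hn, hne, hrec⟩ := recur S A hA hpos a b ha hab ha' hb'
  obtain ⟨m, h1, h2, h3⟩ := hm _ _ hrec
  exact ⟨m, n, hn, hne, h1, h2, h3⟩

/-- the theorem -/
theorem main_thm (a b : ℝ) (ha : 1 < a) (hb : 1 < b) (hab : a ≠ b) (ha' : ∀ k : ℤ, a ≠ k)
    (hb' : ∀ k : ℤ, b ≠ k) (E : Set ℕ)
    (hE : ∃ δ : ℝ, 0 < δ ∧ ∀ N₀ : ℕ, ∃ N : ℕ, N₀ ≤ N ∧
      δ * (N : ℝ) ≤ (({k : ℕ | k ∈ E ∧ k < N}.ncard : ℕ) : ℝ)) :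
    ∃ m n : ℕ, 0 < n ∧ ⌊(n : ℝ) ^ a⌋₊ ≠ ⌊(n : ℝ) ^ b⌋₊ ∧
      m ∈ E ∧ m + ⌊(n : ℝ) ^ a⌋₊ ^ 2 ∈ E ∧ m + ⌊(n : ℝ) ^ b⌋₊ ^ 2 ∈ E := by
  rcases lt_or_gt_of_ne hab with h | h
  · exact main_lt a b ha h ha' hb' E hE
  · obtain ⟨m, n, h1, h2, h3, h4, h5⟩ := main_lt b a hb h hb' ha' E hE
    exact ⟨m, n, h1, h2.symm, h3, h5, h4⟩

end Pool.Agent.Helper50.Rec
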